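import Pool.Agent.V8H26.YA.Cla
import Pool.Agent.V8H26.XL.Sum

/-!
# The law of the 2-Selmer groups of all twists
-/

set_option autoImplicit false
set_option linter.all false

open Polynomial IsDedekindDomain WeierstrassCurve WeierstrassCurve.Affine Filter Topology
open scoped Classical

namespace Pool.Agent.V8H26.YA

open Pool.Agent.TH115.GD Pool.Agent.H341R2.Sharp Finset Pool.Agent.Y164.PS Pool.Agent.V8H26.XA
open Pool.Agent.V8H26.YL (P1E P2E gclE be be_mem be_even cnt_law)
open Pool.Agent.V8H26.XL (F2s F2c pi' pi'_bal pi'_sum pi'_pos pi'_prod cc al al_sum cc_num half_pow_nonneg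
  half_pow_le)

/-! ### The limit laws -/

theorem pi'_sum_halves : HasSum (fun d => pi' (2 * d) + pi' (2 * d + 1)) (∑' r, pi' r) := by
  have h := pi'_sum.hasSum
  have he : Summable fun d : ℕ => pi' (2 * d) := pi'_sum.comp_injective fun x y h => by
    have : 2 * x = 2 * y := h
    omega
  have ho : Summable fun d : ℕ => pi' (2 * d + 1) := pi'_sum.comp_injective fun x y h => by
    have : 2 * x + 1 = 2 * y + 1 := h
    omega
  have h2 := he.hasSum.even_add_odd ho.hasSum
  have h3 := h2.unique h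
  rw [← h3]
  exact he.hasSum.add ho.hasSum

/-- the odd part of the law has the same mass as the even part -/
theorem odd_even : (∑' d, pi' (2 * d + 1)) = ∑' d, pi' (2 * d) := by
  -- the flow of the stationary measure
  set x : ℕ → ℝ := fun r => pi' r * (1 / 2) ^ r with hx
  have hxs : Summable x := by
    refine Summable.of_nonneg_of_le (fun r => mul_nonneg (pi'_pos r).le (half_pow_nonneg r))
      (fun r => ?_) pi'_sum
    calc pi' r * (1 / 2) ^ r ≤ pi' r * 1 := mul_le_mul_of_nonneg_left (half_pow_le r) (pi'_pos r).le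
      _ = pi' r := mul_one _
  have hbal : ∀ r, pi' (r + 1) = x (r + 1) + x r := by
    intro r
    have h1 := pi'_bal r
    show pi' (r + 1) = pi' (r + 1) * (1 / 2) ^ (r + 1) + pi' r * (1 / 2) ^ r
    rw [h1]
    ring
  have inj2 : Function.Injective fun d : ℕ => 2 * d := fun x y h => by
    have : 2 * x = 2 * y := h
    omega
  have inj21 : Function.Injective fun d : ℕ => 2 * d + 1 := fun x y h => by
    have : 2 * x + 1 = 2 * y + 1 := h
    omega
  have x0 : Summable fun d : ℕ => x (2 * d) := hxs.comp_injective inj2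
  have x1 : Summable fun d : ℕ => x (2 * d + 1) := hxs.comp_injective inj21
  have x2 : Summable fun d : ℕ => x (2 * (d + 1)) :=
    (summable_nat_add_iff (f := fun d : ℕ => x (2 * d)) 1).2 x0
  have e1 : (∑' d, pi' (2 * d + 1)) = ∑' d, x (2 * d + 1) + ∑' d, x (2 * d) := by
    rw [← x1.tsum_add x0]
    exact tsum_congr fun d => hbal (2 * d)
  have he : Summable fun d : ℕ => pi' (2 * d) := pi'_sum.comp_injective inj2
  have e2 : (∑' d, pi' (2 * d)) = pi' (2 * 0) + (∑' d, x (2 * (d + 1)) + ∑' d, x (2 * d + 1)) := by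
    rw [he.tsum_eq_zero_add, ← x2.tsum_add x1]
    congr 1
    exact tsum_congr fun d => hbal (2 * d + 1)
  have e3 : (∑' d, x (2 * d)) = x (2 * 0) + ∑' d, x (2 * (d + 1)) := x0.tsum_eq_zero_add
  have e4 : x (2 * 0) = pi' (2 * 0) := by
    show pi' 0 * (1 / 2) ^ 0 = pi' 0
    rw [pow_zero, mul_one]
  rw [e1, e2, e3, e4]
  ring

/-- the law of all twists -/
noncomputable def ga (r : ℕ) : ℝ := be r / 2

theorem ga_sum : HasSum ga 1 := by
  have inj2 : Function.Injective fun d : ℕ => 2 * d := fun x y h => by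
    have : 2 * x = 2 * y := h
    omega
  have inj21 : Function.Injective fun d : ℕ => 2 * d + 1 := fun x y h => by
    have : 2 * x + 1 = 2 * y + 1 := h
    omega
  have he : Summable fun d : ℕ => pi' (2 * d) := pi'_sum.comp_injective inj2
  have ho : Summable fun d : ℕ => pi' (2 * d + 1) := pi'_sum.comp_injective inj21
  have h1 : (∑' d, pi' (2 * d)) * cc = 1 := by
    have h2 : HasSum (fun d => pi' (2 * d) * cc) ((∑' d, pi' (2 * d)) * cc) := he.hasSum.mul_right cc
    exact h2.unique al_sum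
  have g0 : HasSum (fun d => ga (2 * d)) (1 / 2) := by
    have h2 : HasSum (fun d => pi' (2 * d) * cc / 2) ((∑' d, pi' (2 * d)) * cc / 2) :=
      (he.hasSum.mul_right cc).div_const 2
    rw [h1] at h2
    exact h2
  have g1 : HasSum (fun d => ga (2 * d + 1)) (1 / 2) := by
    have h2 : HasSum (fun d => pi' (2 * d + 1) * cc / 2) ((∑' d, pi' (2 * d + 1)) * cc / 2) :=
      (ho.hasSum.mul_right cc).div_const 2
    rw [odd_even, h1] at h2
    exact h2
  have h := g0.even_add_odd g1
  norm_num at h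
  exact h

theorem ga_prod (r : ℕ) : ga r = 1 / 2 * (∏' i : ℕ, (1 - (1 / 2 : ℝ) ^ (2 * i + 1))) *
    ∏ j ∈ range r, 2 / ((2 : ℝ) ^ (j + 1) - 1) := by
  rw [ga, be, pi'_prod, cc]
  ring

/-! ### Counting signs -/

section
variable {k : Type} [Field k] [Fintype k] [DecidableEq k]
variable {a b : k[X]} {N : ℕ} (H : Hyp a b N)

/-- the admissible signs -/
noncomputable def CE (a b : k[X]) : Finset (Tau a b → F2) :=
  univ.filter fun ep => ∀ s, tv a b s = 0 → ep s = 1

theorem mem_CE {ep : Tau a b → F2} : ep ∈ CE a b ↔ ∀ s, tv a b s = 0 → ep s = 1 := by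
  rw [CE, mem_filter]
  exact ⟨fun h => h.2, fun h => ⟨mem_univ _, h⟩⟩

/-- changing one sign -/
noncomputable def flip (s0 : Tau a b) (ep : Tau a b → F2) : Tau a b → F2 :=
  Function.update ep s0 (ep s0 + 1)

theorem flip_flip (s0 : Tau a b) (ep : Tau a b → F2) : flip s0 (flip s0 ep) = ep := by
  funext s
  by_cases h : s = s0
  · subst h
    rw [flip, Function.update_self, flip, Function.update_self, add_assoc, F2s, add_zero]
  · rw [flip, Function.update_of_ne h, flip, Function.update_of_ne h]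

theorem flip_CE {s0 : Tau a b} (h0 : tv a b s0 ≠ 0) {ep : Tau a b → F2} (h : ep ∈ CE a b) :
    flip s0 ep ∈ CE a b := by
  rw [mem_CE] at h ⊢
  intro s hs
  have h1 : s ≠ s0 := by
    rintro rfl
    exact h0 hs
  rw [flip, Function.update_of_ne h1]
  exact h s hs

theorem flip_spn (s0 : Tau a b) (ep : Tau a b → F2) : spn (flip s0 ep) % 2 = (spn ep + 1) % 2 := by
  have key : ∀ e : Tau a b → F2, (spn e : F2) = ∑ s, (1 + e s) := by
    intro e
    rw [spn, card_filter]
    push_cast
    refine sum_congr rfl fun s _ => ?_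
    rcases F2c (e s) with h | h
    · rw [h, if_pos rfl, add_zero]
    · rw [h, if_neg one_ne_zero]
      exact (F2s 1).symm
  have h1 : (spn (flip s0 ep) : F2) = ((spn ep + 1 : ℕ) : F2) := by
    rw [Nat.cast_add, key, key, ← add_sum_erase univ _ (mem_univ s0),
      ← add_sum_erase univ (fun s => 1 + ep s) (mem_univ s0)]
    have h2 : ∑ s ∈ univ.erase s0, (1 + flip s0 ep s) = ∑ s ∈ univ.erase s0, (1 + ep s) :=
      sum_congr rfl fun s hs => by rw [flip, Function.update_of_ne (ne_of_mem_erase hs)]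
    rw [h2, flip, Function.update_self]
    push_cast
    ring
  exact F2_mod h1

/-- half of the admissible signs have a given parity -/
theorem CE_half {s0 : Tau a b} (h0 : tv a b s0 ≠ 0) (e : ℕ) :
    2 * ((CE a b).filter fun ep => e % 2 = spn ep % 2).card = (CE a b).card := by
  have h1 : ((CE a b).filter fun ep => e % 2 = spn ep % 2).card =
      ((CE a b).filter fun ep => ¬ e % 2 = spn ep % 2).card := by
    apply card_nbij' (flip s0) (flip s0)
    · intro ep hep
      rw [mem_coe, mem_filter] at hep ⊢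
      have := flip_spn s0 ep
      exact ⟨flip_CE h0 hep.1, by omega⟩
    · intro ep hep
      rw [mem_coe, mem_filter] at hep ⊢
      have := flip_spn s0 ep
      exact ⟨flip_CE h0 hep.1, by omega⟩
    · intro ep _
      exact flip_flip s0 ep
    · intro ep _
      exact flip_flip s0 ep
  have h2 := card_filter_add_card_filter_not (s := CE a b) (fun ep => e % 2 = spn ep % 2)
  omega

theorem CE_card : (CE a b).card = 2 ^ (univ.filter fun s : Tau a b => tv a b s ≠ 0).card := by
  have h1 : CE a b = Fintype.piFinset fun s : Tau a b =>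
      if tv a b s = 0 then ({1} : Finset F2) else univ := by
    ext ep
    rw [mem_CE, Fintype.mem_piFinset]
    apply forall_congr'
    intro s
    by_cases h : tv a b s = 0
    · rw [if_pos h, mem_singleton]
      exact ⟨fun h' => h' h, fun h' _ => h'⟩
    · rw [if_neg h]
      exact ⟨fun _ => mem_univ _, fun _ h' => absurd h' h⟩
  rw [h1, Fintype.card_piFinset]
  have h2 : ∀ s : Tau a b, (if tv a b s = 0 then ({1} : Finset F2) else univ).card =
      if tv a b s ≠ 0 then 2 else 1 := by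
    intro s
    by_cases h : tv a b s = 0
    · rw [if_pos h, if_neg (not_not.2 h), card_singleton]
    · rw [if_neg h, if_pos h]
      rfl
  simp only [h2]
  rw [← prod_filter, prod_const]

include H in
/-- the number of the bad primes with odd multiplicity -/
theorem odd_card : (univ.filter fun s : Tau a b => tv a b s ≠ 0).card =
    {Q : k[X] | Q.Monic ∧ Irreducible Q ∧ Q ∣ a * b * (a - b) ∧
      ¬ EvM Q (a * b * (a - b))}.ncard := by
  have hi : Function.Injective (QQ a b) := fun x y h => Subtype.ext h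
  have h1 : {Q : k[X] | Q.Monic ∧ Irreducible Q ∧ Q ∣ a * b * (a - b) ∧
      ¬ EvM Q (a * b * (a - b))} = QQ a b '' {s | tv a b s ≠ 0} := by
    ext Q
    constructor
    · rintro ⟨h1, h2, h3, h4⟩
      have h5 : tv a b (⟨Q, (mem_bp H).2 ⟨h1, h2, h3⟩⟩ : Tau a b) ≠ 0 := by
        intro h
        have h6 := (tv_iff H _).1 h
        exact h4 h6
      exact ⟨⟨Q, (mem_bp H).2 ⟨h1, h2, h3⟩⟩, h5, rfl⟩
    · rintro ⟨s, hs, rfl⟩
      have h1 := (mem_bp H).1 s.2
      have h2 : ¬ EvM (QQ a b s) (a * b * (a - b)) := by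
        intro h
        have h3 : tv a b s ≠ 0 := hs
        exact h3 ((tv_iff H s).2 h)
      exact ⟨h1.1, h1.2.1, h1.2.2, h2⟩
  rw [h1, Set.ncard_image_of_injective _ hi, ← Set.ncard_coe_finset]
  congr 1
  ext s
  simp

/-! ### Sums over the classes -/

include H in
theorem Tw_split (n : ℕ) (G : k[X] → Prop) : ({D ∈ Tw a b n | G D}).ncard =
    ∑ ep ∈ CE a b, ((Sf k n).filter (P2E G a b ep)).card := by
  have h1 : {D ∈ Tw a b n | G D} =
      (((CE a b).biUnion fun ep => (Sf k n).filter (P2E G a b ep) : Finset k[X]) : Set k[X]) := by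
    ext D
    rw [Finset.mem_coe, mem_biUnion]
    constructor
    · rintro ⟨h1, h2⟩
      obtain ⟨m1, m2, m3⟩ := (mem_Tw H).1 h1
      exact ⟨sgn a b D, mem_CE.2 m3, mem_filter.2 ⟨m1, ⟨m2, gclE_iff.2 rfl⟩, h2⟩⟩
    · rintro ⟨ep, h1, h2⟩
      obtain ⟨m1, ⟨m2, m3⟩, m4⟩ := mem_filter.1 h2
      rw [gclE_iff] at m3
      exact ⟨(mem_Tw H).2 ⟨m1, m2, fun s hs => by rw [m3]; exact mem_CE.1 h1 s hs⟩, m4⟩
  rw [h1, Set.ncard_coe_finset, card_biUnion]
  intro e _ e' _ hne
  rw [Function.onFun, disjoint_left]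
  intro D hD hD'
  have h2 := gclE_iff.1 (mem_filter.1 hD).2.1.2
  have h3 := gclE_iff.1 (mem_filter.1 hD').2.1.2
  exact hne (h2.symm.trans h3)

include H in
theorem Tw_split' (n : ℕ) : (Tw a b n).ncard =
    ∑ ep ∈ CE a b, ((Sf k n).filter (P1E a b ep)).card := by
  have h := Tw_split H n (fun _ => True)
  have h1 : {D ∈ Tw a b n | True} = Tw a b n := by
    ext D
    exact ⟨fun h => h.1, fun h => ⟨h, trivial⟩⟩
  rw [h1] at h
  rw [h]
  refine sum_congr rfl fun ep _ => ?_
  congr 1
  ext D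
  rw [mem_filter, mem_filter, P2E]
  tauto

end

/-- the final form -/
theorem final {k : Type} [Field k] [Finite k] (h2 : (2 : k) ≠ 0) (hi : IsSquare (-1 : k))
    (K : Type) [Field K] [Algebra k[X] K] [IsFractionRing k[X] K] (a b : k[X]) (N : ℕ)
    (hco : IsCoprime a b) (da : a.natDegree = N) (db : b.natDegree = N) (dc : (a - b).natDegree = N)
    (s1 : ∀ (c : k) (h : k[X]), a * b ≠ C c * h ^ 2)
    (s2 : ∀ (c : k) (h : k[X]), a * (a - b) ≠ C c * h ^ 2)
    (s3 : ∀ (c : k) (h : k[X]), b * (a - b) ≠ C c * h ^ 2) :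
    (∃ c : ℝ, 0 < c ∧ ∀ᶠ n : ℕ in atTop, c * (Nat.card k : ℝ) ^ n ≤ ((Tw a b n).ncard : ℝ)) ∧
    (∀ r : ℕ, Tendsto (fun n : ℕ => (({D ∈ Tw a b n | so k K a b D = 2 ^ (r + 2)}).ncard : ℝ) /
      ((Tw a b n).ncard : ℝ)) (atTop ⊓ 𝓟 {n | Odd (n + N)}) (𝓝 (ga r))) ∧
    (∀ n : ℕ, 1 ≤ n → Odd (n + N) → ∀ D ∈ Tw a b n,
      (∃ r : ℕ, Even (r + (splS a b D).ncard) ∧ so k K a b D = 2 ^ (r + 2)) ∧
      (so k K a b D = 4 ↔
        Finite (Pt (crv (algebraMap k[X] K (a * D)) (algebraMap k[X] K (b * D))) K) ∧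
        ShaTwo k (crv (algebraMap k[X] K (a * D)) (algebraMap k[X] K (b * D))))) ∧
    ∀ T : Set k[X], (∀ Q ∈ T, Q.Monic ∧ Irreducible Q ∧ Q ∣ a * b * (a - b) ∧
        ¬ EvM Q (a * b * (a - b))) →
      Tendsto (fun n : ℕ => (({D ∈ Tw a b n | splS a b D = T}).ncard : ℝ) /
          ((Tw a b n).ncard : ℝ)) atTop
        (𝓝 (1 / 2 ^ ({Q : k[X] | Q.Monic ∧ Irreducible Q ∧ Q ∣ a * b * (a - b) ∧
          ¬ EvM Q (a * b * (a - b))}.ncard))) ∧
      ∀ r : ℕ, Even (r + T.ncard) → Tendsto (fun n : ℕ =>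
        (({D ∈ Tw a b n | splS a b D = T ∧ so k K a b D = 2 ^ (r + 2)}).ncard : ℝ) /
          (({D ∈ Tw a b n | splS a b D = T}).ncard : ℝ))
        (atTop ⊓ 𝓟 {n | Odd (n + N)}) (𝓝 (2 * ga r)) := by
  letI : Fintype k := Fintype.ofFinite k
  have ha0 : a ≠ 0 := by
    rintro rfl
    exact s1 0 0 (by simp)
  have hb0 : b ≠ 0 := by
    rintro rfl
    exact s1 0 0 (by simp)
  have hab : a ≠ b := by
    rintro rfl
    exact s2 0 0 (by simp)
  have hchar : ringChar k ≠ 2 := by
    intro h
    apply h2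
    have := ringChar.Nat.cast_ringChar (R := k)
    rw [h] at this
    exact_mod_cast this
  have H : Hyp a b N := ⟨hchar, hi, ha0, hb0, hab, hco, da, db, dc⟩
  have hq : 4 ≤ Fintype.card k := by
    -- `-1` is a square and `2 ≠ 0`
    by_contra hlt
    push Not at hlt
    obtain ⟨i, hi'⟩ := hi
    have n0 : (0 : k) ≠ 1 := zero_ne_one
    have n1 : (1 : k) ≠ -1 := by
      intro h
      apply h2
      have : (2 : k) = 1 + 1 := by norm_num
      rw [this]
      nth_rewrite 2 [h]
      ring
    have i0 : i ≠ 0 := by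
      rintro rfl
      rw [mul_zero] at hi'
      exact neg_ne_zero.2 one_ne_zero hi'
    have i1 : i ≠ 1 := by
      rintro rfl
      rw [mul_one] at hi'
      exact n1 hi'.symm
    have i2 : i ≠ -1 := by
      rintro rfl
      apply n1
      rw [hi']
      ring
    have hcard : ({0, 1, -1, i} : Finset k).card = 4 := by
      rw [card_insert_of_notMem, card_insert_of_notMem, card_insert_of_notMem, card_singleton]
      · rw [mem_singleton]; exact fun h => i2 h.symm
      · rw [mem_insert, mem_singleton]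
        push Not
        exact ⟨n1, fun h => i1 h.symm⟩
      · rw [mem_insert, mem_insert, mem_singleton]
        push Not
        exact ⟨n0, fun h => neg_ne_zero.2 one_ne_zero h.symm, fun h => i0 h.symm⟩
    have := card_le_univ ({0, 1, -1, i} : Finset k)
    rw [hcard] at this
    omega
  have hcN : (Nat.card k : ℝ) = (Fintype.card k : ℝ) := by rw [Nat.card_eq_fintype_card]
  have hodd : ∀ n : ℕ, Odd (n + N) → (n : F2) + (N : F2) = 1 := by
    intro n hn
    have : ((n + N : ℕ) : F2) = 1 := (ZMod.natCast_eq_one_iff_odd).2 hn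
    rw [← this]
    push_cast
    rfl
  have hle : (atTop ⊓ 𝓟 {n : ℕ | Odd (n + N)}) ≤ (atTop ⊓ 𝓟 {n : ℕ | (n : F2) + (N : F2) = 1}) :=
    inf_le_inf_left _ (principal_mono.2 fun n hn => hodd n hn)
  have h2t := two_types H s1 s2 s3
  obtain ⟨s0, hs0⟩ := h2t (1, 0) (by decide)
  have hτ : Nonempty (Tau a b) := ⟨s0⟩
  have ht0 : tv a b s0 ≠ 0 := by
    intro h
    apply hs0
    show om (1, 0) (tv a b s0) = 0
    rw [h, om_zero_right]
  obtain ⟨t2, ht2⟩ : ∃ t2 : ℝ, t2 = 2 ^ Fintype.card (Tau a b) := ⟨_, rfl⟩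
  have ht2p : 0 < t2 := by rw [ht2]; exact pow_pos (by norm_num) _
  have hCEp : 0 < ((CE a b).card : ℝ) := by
    rw [CE_card]
    push_cast
    positivity
  have hx : (0 : ℝ) < (CE a b).card / t2 := div_pos hCEp ht2p
  have hx2 : (0 : ℝ) < (CE a b).card / t2 / 2 := half_pos hx
  set nbc : ℕ → ℝ := fun n => (((Sf k n).filter (nb a b)).card : ℝ) with hnbc
  obtain ⟨c0, hc0, hlow⟩ := nb_lower H hq
  have hqp : (0 : ℝ) < Fintype.card k := by exact_mod_cast Fintype.card_pos
  have hnbp : ∀ᶠ n : ℕ in atTop, 0 < nbc n := by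
    filter_upwards [hlow] with n hn
    refine lt_of_lt_of_le ?_ hn
    positivity
  have hcl1 : ∀ ep : Tau a b → F2, Tendsto (fun n : ℕ =>
      (((Sf k n).filter (P1E a b ep)).card : ℝ) / nbc n) atTop (𝓝 (1 / t2)) := fun ep => by
    rw [ht2]
    exact cnt_law H ep hq
  -- the number of all twists
  have hTw : Tendsto (fun n : ℕ => ((Tw a b n).ncard : ℝ) / nbc n) atTop
      (𝓝 ((CE a b).card / t2)) := by
    have h1 : (fun n : ℕ => ((Tw a b n).ncard : ℝ) / nbc n) = fun n =>
        ∑ ep ∈ CE a b, (((Sf k n).filter (P1E a b ep)).card : ℝ) / nbc n := by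
      funext n
      rw [Tw_split' H]
      push_cast
      rw [sum_div]
    have h2 : ((CE a b).card / t2 : ℝ) = ∑ ep ∈ CE a b, 1 / t2 := by
      rw [sum_const, nsmul_eq_mul]
      ring
    rw [h1, h2]
    exact tendsto_finset_sum _ fun ep _ => hcl1 ep
  have hTwp : ∀ᶠ n : ℕ in atTop, 0 < ((Tw a b n).ncard : ℝ) := by
    filter_upwards [hTw.eventually_const_lt hx, hnbp] with n h3 h4
    by_contra h5
    push Not at h5
    have := div_nonpos_of_nonpos_of_nonneg h5 h4.le
    linarith
  have hcp : ∀ ep : Tau a b → F2, ∀ᶠ n : ℕ in atTop,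
      0 < (((Sf k n).filter (P1E a b ep)).card : ℝ) := by
    intro ep
    have h1 : (0 : ℝ) < 1 / t2 := by positivity
    filter_upwards [(hcl1 ep).eventually_const_lt h1, hnbp] with n h3 h4
    by_contra h5
    push Not at h5
    have := div_nonpos_of_nonpos_of_nonneg h5 h4.le
    linarith
  -- the law in a class
  have hcl2 : ∀ r : ℕ, ∀ ep ∈ CE a b, Tendsto (fun n : ℕ =>
      (((Sf k n).filter (P2E (fun D => so k K a b D = 2 ^ (r + 2)) a b ep)).card : ℝ) / nbc n)
      (atTop ⊓ 𝓟 {n | Odd (n + N)}) (𝓝 (if r % 2 = spn ep % 2 then be r / t2 else 0)) := by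
    intro r ep hep
    have hep' := mem_CE.1 hep
    split_ifs with hr
    · have h1 := (law_cls K H hep' hq h2t hr).mono_left hle
      have h3 := h1.mul ((hcl1 ep).mono_left (inf_le_left (b := 𝓟 {n : ℕ | Odd (n + N)})))
      have h4 : be r * (1 / t2) = be r / t2 := by ring
      rw [h4] at h3
      refine h3.congr' ?_
      rw [EventuallyEq, eventually_inf_principal]
      filter_upwards [hcp ep] with n hn _
      exact div_mul_div_cancel₀ hn.ne'
    · refine (tendsto_const_nhds (x := (0 : ℝ))).congr' ?_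
      rw [EventuallyEq, eventually_inf_principal]
      filter_upwards [eventually_ge_atTop 1] with n hn ho
      have h1 : ((Sf k n).filter (P2E (fun D => so k K a b D = 2 ^ (r + 2)) a b ep)) = ∅ := by
        rw [filter_eq_empty_iff]
        rintro D hD ⟨h3, h4⟩
        obtain ⟨⟨r', h5, h6⟩, -⟩ := one_cls K H hep' hn (hodd n ho) hτ hD h3
        have h7 : 2 ^ (r' + 2) = 2 ^ (r + 2) := h6.symm.trans h4
        have h8 := Nat.pow_right_injective (le_refl 2) h7
        apply hr
        omega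
      rw [h1, card_empty, Nat.cast_zero, zero_div]
  have hF : ∀ r : ℕ, Tendsto (fun n : ℕ =>
      (({D ∈ Tw a b n | so k K a b D = 2 ^ (r + 2)}).ncard : ℝ) / nbc n)
      (atTop ⊓ 𝓟 {n | Odd (n + N)}) (𝓝 ((CE a b).card / t2 * ga r)) := by
    intro r
    have h1 : (fun n : ℕ => (({D ∈ Tw a b n | so k K a b D = 2 ^ (r + 2)}).ncard : ℝ) / nbc n) =
        fun n => ∑ ep ∈ CE a b,
          (((Sf k n).filter (P2E (fun D => so k K a b D = 2 ^ (r + 2)) a b ep)).card : ℝ) / nbc n := by
      funext n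
      rw [Tw_split H n (fun D => so k K a b D = 2 ^ (r + 2))]
      push_cast
      rw [sum_div]
    have h2 : ((CE a b).card / t2 * ga r : ℝ) =
        ∑ ep ∈ CE a b, (if r % 2 = spn ep % 2 then be r / t2 else 0) := by
      rw [← sum_filter, sum_const, nsmul_eq_mul, ga]
      have h3 := CE_half ht0 r
      have h4 : (2 : ℝ) * ((CE a b).filter fun ep => r % 2 = spn ep % 2).card = (CE a b).card := by
        exact_mod_cast h3
      rw [← h4]
      ring
    rw [h1, h2]
    exact tendsto_finset_sum _ fun ep hep => hcl2 r ep hep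
  refine ⟨?_, ?_, ?_, ?_⟩
  · refine ⟨c0 * ((CE a b).card / t2 / 2), mul_pos hc0 hx2, ?_⟩
    have h1 : ((CE a b).card / t2 / 2 : ℝ) < (CE a b).card / t2 := half_lt_self hx
    filter_upwards [hTw.eventually_const_lt h1, hlow, hnbp] with n h3 h4 h5
    rw [hcN]
    have h6 := (lt_div_iff₀ h5).1 h3
    calc c0 * ((CE a b).card / t2 / 2) * (Fintype.card k : ℝ) ^ n =
        ((CE a b).card / t2 / 2) * (c0 * (Fintype.card k : ℝ) ^ n) := by ring
      _ ≤ ((CE a b).card / t2 / 2) * nbc n := mul_le_mul_of_nonneg_left h4 hx2.le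
      _ ≤ _ := h6.le
  · intro r
    have h1 := (hF r).div (hTw.mono_left (inf_le_left (b := 𝓟 {n : ℕ | Odd (n + N)})))
      hx.ne'
    have h3 : ((CE a b).card / t2 * ga r) / ((CE a b).card / t2) = ga r :=
      mul_div_cancel_left₀ _ hx.ne'
    rw [h3] at h1
    refine h1.congr' ?_
    rw [EventuallyEq, eventually_inf_principal]
    filter_upwards [hnbp, hTwp] with n hn hn' _
    exact div_div_div_cancel_right₀ hn.ne' _ _
  · intro n hn ho D hD
    obtain ⟨m1, m2, m3⟩ := (mem_Tw H).1 hD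
    obtain ⟨⟨r, h1, h3⟩, h4⟩ := one_cls K H (ep := sgn a b D) m3 hn (hodd n ho) hτ m1
      ⟨m2, gclE_iff.2 rfl⟩
    refine ⟨⟨r, ?_, h3⟩, h4⟩
    rw [splS_card H m2, Nat.even_iff]
    omega
  · intro T hT
    have hep := sgT_hep H hT
    have e1 : ∀ n (G : k[X] → Prop), ({D ∈ Tw a b n | splS a b D = T ∧ G D}).ncard =
        ((Sf k n).filter (P2E G a b (sgT a b T))).card := by
      intro n G
      rw [← Set.ncard_coe_finset]
      congr 1
      ext D
      rw [Finset.mem_coe, mem_filter, P2E]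
      have := mem_cls H hT (n := n) (D := D)
      show (D ∈ Tw a b n ∧ splS a b D = T ∧ G D) ↔ _
      tauto
    have e2 : ∀ n, ({D ∈ Tw a b n | splS a b D = T}).ncard =
        ((Sf k n).filter (P1E a b (sgT a b T))).card := by
      intro n
      rw [← Set.ncard_coe_finset]
      congr 1
      ext D
      rw [Finset.mem_coe, mem_filter]
      exact mem_cls H hT
    constructor
    · have h1 := (hcl1 (sgT a b T)).div hTw hx.ne'
      have h3 : (1 / t2) / ((CE a b).card / t2) = 1 / 2 ^ ({Q : k[X] | Q.Monic ∧ Irreducible Q ∧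
          Q ∣ a * b * (a - b) ∧ ¬ EvM Q (a * b * (a - b))}.ncard) := by
        rw [← odd_card H]
        have h5 : ((CE a b).card : ℝ) = 2 ^ (univ.filter fun s : Tau a b => tv a b s ≠ 0).card := by
          rw [CE_card]
          push_cast
          rfl
        rw [← h5]
        exact div_div_div_cancel_right₀ ht2p.ne' _ _
      rw [h3] at h1
      refine h1.congr' ?_
      filter_upwards [hnbp, hTwp] with n hn hn'
      rw [e2]
      exact div_div_div_cancel_right₀ hn.ne' _ _
    · intro r hr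
      have hr' : r % 2 = spn (sgT a b T) % 2 := by
        rw [sgT_spn H hT]
        rw [Nat.even_iff] at hr
        omega
      have h1 := (law_cls K H hep hq h2t hr').mono_left hle
      have h3 : 2 * ga r = be r := by rw [ga]; ring
      rw [h3]
      refine h1.congr fun n => ?_
      rw [e1 n (fun D => so k K a b D = 2 ^ (r + 2)), e2]

end Pool.Agent.V8H26.YA
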