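import Pool.Agent.V8H26.YA.Fin

/-!
# The classes of the twists in terms of residues
-/

set_option autoImplicit false
set_option linter.all false

open Polynomial IsDedekindDomain WeierstrassCurve WeierstrassCurve.Affine Filter Topology
open scoped Classical

namespace Pool.Agent.V8H26.YA

open Pool.Agent.TH115.GD Pool.Agent.H341R2.Sharp Finset Pool.Agent.Y164.PS Pool.Agent.V8H26.XA
open Pool.Agent.V8H26.YL (P1E P2E gclE be be_mem)
open Pool.Agent.V8H26.XL (F2s F2c)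

/-- the polynomial `f` is not a square modulo `Q` -/
def NSq {k : Type} [Field k] (Q f : k[X]) : Prop := ∀ h : k[X], ¬ Q ∣ h ^ 2 - f

/-- non-split reduction at `Q` -/
def NSpl {k : Type} [Field k] (a b D Q : k[X]) : Prop :=
  (Q ∣ a ∧ NSq Q (b * D)) ∨ (Q ∣ b * (a - b) ∧ NSq Q (a * D))

/-- the multiplicity of `Q` in `f` is even -/
def EvM {k : Type} [Field k] (Q f : k[X]) : Prop :=
  ∃ m : ℕ, Q ^ (2 * m) ∣ f ∧ ¬ Q ^ (2 * m + 1) ∣ f

/-- the twists -/
def Tw {k : Type} [Field k] (a b : k[X]) (n : ℕ) : Set k[X] :=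
  {D | D.Monic ∧ D.natDegree = n ∧ Squarefree D ∧ IsCoprime D (a * b * (a - b)) ∧
    ∀ Q : k[X], Q.Monic → Irreducible Q → Q ∣ a * b * (a - b) → EvM Q (a * b * (a - b)) →
      NSpl a b D Q}

/-- the primes with split reduction -/
def splS {k : Type} [Field k] (a b D : k[X]) : Set k[X] :=
  {Q | Q.Monic ∧ Irreducible Q ∧ Q ∣ a * b * (a - b) ∧ ¬ NSpl a b D Q}

variable {k : Type} [Field k] [Fintype k] [DecidableEq k]
variable {a b : k[X]} {N : ℕ} (H : Hyp a b N)

/-- the signs of a twist -/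
noncomputable def sgn (a b D : k[X]) (s : Tau a b) : F2 := L D (QQ a b s) + gv a b s

theorem gclE_iff {ep : Tau a b → F2} {D : k[X]} : gclE a b ep D ↔ sgn a b D = ep := by
  rw [funext_iff]
  apply forall_congr'
  intro s
  have h : ∀ e x y : F2, e + x + y = 0 ↔ x + y = e := by decide
  exact h _ _ _

include H in
theorem nspl_iff {D : k[X]} {s : Tau a b} (hD : ¬ QQ a b s ∣ D) :
    sgn a b D s = 1 ↔ NSpl a b D (QQ a b s) := by
  have hp := (H.fam.irr s).prime
  by_cases hsa : QQ a b s ∣ a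
  · have hsb : ¬ QQ a b s ∣ b ∧ ¬ QQ a b s ∣ a - b := by
      rcases tri H s with h | h | h
      · exact h.2
      · exact absurd hsa h.1
      · exact absurd hsa h.1
    have h1 : sgn a b D s = L (b * D) (QQ a b s) := by
      rw [sgn, gv, if_pos hsa, L_mul_nd (fun _ => trivial) (H.fam.irr s) hsb.1 hD, add_comm]
    rw [h1, L_one_iff H.hk (H.fam.mon s) (H.fam.irr s) (fun h => (hp.dvd_or_dvd h).elim hsb.1 hD)]
    constructor
    · intro h
      exact Or.inl ⟨hsa, h⟩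
    · rintro (⟨-, h⟩ | ⟨h, -⟩)
      · exact h
      · exact ((hp.dvd_or_dvd h).elim hsb.1 hsb.2).elim
  · have hsb : QQ a b s ∣ b * (a - b) := by
      rcases tri H s with h | h | h
      · exact absurd h.1 hsa
      · exact h.2.1.mul_right _
      · exact h.2.2.mul_left _
    have h1 : sgn a b D s = L (a * D) (QQ a b s) := by
      rw [sgn, gv, if_neg hsa, L_mul_nd (fun _ => trivial) (H.fam.irr s) hsa hD, add_comm]
    rw [h1, L_one_iff H.hk (H.fam.mon s) (H.fam.irr s) (fun h => (hp.dvd_or_dvd h).elim hsa hD)]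
    constructor
    · intro h
      exact Or.inr ⟨hsb, h⟩
    · rintro (⟨h, -⟩ | ⟨-, h⟩)
      · exact absurd h hsa
      · exact h

theorem pow_dvd_iff {f Q : k[X]} (hf : f ≠ 0) (hm : Q.Monic) (hi : Irreducible Q) (n : ℕ) :
    Q ^ n ∣ f ↔ n ≤ mu f Q := by
  have h1 := UniqueFactorizationMonoid.emultiplicity_eq_count_normalizedFactors hi hf
  rw [hm.normalize_eq_self] at h1
  rw [pow_dvd_iff_le_emultiplicity, h1, mu]
  exact Nat.cast_le

theorem evM_iff {f Q : k[X]} (hf : f ≠ 0) (hm : Q.Monic) (hi : Irreducible Q) :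
    EvM Q f ↔ (mu f Q : F2) = 0 := by
  rw [EvM, cast_eq_zero_iff_even]
  constructor
  · rintro ⟨m, h1, h2⟩
    rw [pow_dvd_iff hf hm hi] at h1 h2
    exact ⟨m, by omega⟩
  · rintro ⟨m, h⟩
    refine ⟨m, ?_, ?_⟩
    · rw [pow_dvd_iff hf hm hi]; omega
    · rw [pow_dvd_iff hf hm hi]; omega

theorem mu_mul {f g Q : k[X]} (hf : f ≠ 0) (hg : g ≠ 0) : mu (f * g) Q = mu f Q + mu g Q := by
  rw [mu, UniqueFactorizationMonoid.normalizedFactors_mul hf hg, Multiset.count_add]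
  rfl

include H in
theorem tv_iff (s : Tau a b) : tv a b s = 0 ↔ EvM (QQ a b s) (a * b * (a - b)) := by
  have hc : a - b ≠ 0 := sub_ne_zero.2 H.hab
  rw [evM_iff H.prod_ne (H.fam.mon s) (H.fam.irr s), mu_mul (mul_ne_zero H.ha H.hb) hc,
    mu_mul H.ha H.hb]
  obtain ⟨c1, c2, c3⟩ := cross H s
  push_cast
  have key : ∀ x y z : F2, x * y = 0 → x * z = 0 → y * z = 0 →
      (((x + y, x + z) : W) = 0 ↔ x + y + z = 0) := by decide
  exact key _ _ _ c1 c2 c3

include H in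
theorem nb_iff {D : k[X]} : nb a b D ↔ IsCoprime D (a * b * (a - b)) := by
  constructor
  · intro h
    rw [isCoprime_comm]
    by_contra hno
    rw [← EuclideanDomain.gcd_isUnit_iff] at hno
    have hg : EuclideanDomain.gcd (a * b * (a - b)) D ≠ 0 := by
      intro h0
      have := EuclideanDomain.gcd_dvd_left (a * b * (a - b)) D
      rw [h0, zero_dvd_iff] at this
      exact H.prod_ne this
    obtain ⟨π, hπ, hd⟩ := WfDvdMonoid.exists_irreducible_factor hno hg
    have h1 := hd.trans (EuclideanDomain.gcd_dvd_left (a * b * (a - b)) D)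
    have h2 := hd.trans (EuclideanDomain.gcd_dvd_right (a * b * (a - b)) D)
    have hm : (normalize π).Monic := monic_normalize hπ.ne_zero
    have ha : Associated π (normalize π) := (normalize_associated π).symm
    exact h ⟨normalize π, (mem_bp H).2 ⟨hm, ha.irreducible hπ, (ha.symm.dvd).trans h1⟩⟩
      ((ha.symm.dvd).trans h2)
  · intro h s hs
    have h1 := (mem_bp H).1 s.2
    exact h1.2.1.not_isUnit (h.isUnit_of_dvd' hs h1.2.2)

include H in
/-- the twists in terms of the signs -/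
theorem mem_Tw {n : ℕ} {D : k[X]} : D ∈ Tw a b n ↔
    D ∈ Sf k n ∧ nb a b D ∧ ∀ s, tv a b s = 0 → sgn a b D s = 1 := by
  have key : nb a b D → ((∀ Q : k[X], Q.Monic → Irreducible Q → Q ∣ a * b * (a - b) →
      EvM Q (a * b * (a - b)) → NSpl a b D Q) ↔ ∀ s, tv a b s = 0 → sgn a b D s = 1) := by
    intro hn
    constructor
    · intro h s hs
      have h1 := (mem_bp H).1 s.2
      rw [nspl_iff H (hn s)]
      exact h _ h1.1 h1.2.1 h1.2.2 ((tv_iff H s).1 hs)
    · intro h Q h1 h2 h3 h4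
      have h5 := h ⟨Q, (mem_bp H).2 ⟨h1, h2, h3⟩⟩ ((tv_iff H _).2 h4)
      rw [nspl_iff H (hn _)] at h5
      exact h5
  rw [mem_Sf]
  constructor
  · rintro ⟨m1, m2, m3, m4, m5⟩
    have hn := (nb_iff H).2 m4
    exact ⟨⟨m1, m2, m3⟩, hn, (key hn).1 m5⟩
  · rintro ⟨⟨m1, m2, m3⟩, hn, m5⟩
    exact ⟨m1, m2, m3, (nb_iff H).1 hn, (key hn).2 m5⟩

include H in
theorem splS_eq {D : k[X]} (hn : nb a b D) : splS a b D = QQ a b '' {s | sgn a b D s = 0} := by
  have h01 : ∀ x : F2, x = 0 ↔ ¬ x = 1 := by decide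
  ext Q
  constructor
  · rintro ⟨h1, h2, h3, h4⟩
    refine ⟨⟨Q, (mem_bp H).2 ⟨h1, h2, h3⟩⟩, ?_, rfl⟩
    show sgn a b D _ = 0
    rw [h01, nspl_iff H (hn _)]
    exact h4
  · rintro ⟨s, hs, rfl⟩
    have h1 := (mem_bp H).1 s.2
    have hs' : sgn a b D s = 0 := hs
    rw [h01, nspl_iff H (hn _)] at hs'
    exact ⟨h1.1, h1.2.1, h1.2.2, hs'⟩

theorem ncard_img (ep : Tau a b → F2) : (QQ a b '' {s | ep s = 0}).ncard = spn ep := by
  have hi : Function.Injective (QQ a b) := fun x y h => Subtype.ext h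
  rw [Set.ncard_image_of_injective _ hi, spn, ← Set.ncard_coe_finset]
  congr 1
  ext s
  simp

include H in
theorem splS_card {D : k[X]} (hn : nb a b D) : (splS a b D).ncard = spn (sgn a b D) := by
  rw [splS_eq H hn, ncard_img]

/-- the signs of a set of primes -/
noncomputable def sgT (a b : k[X]) (T : Set k[X]) (s : Tau a b) : F2 := if QQ a b s ∈ T then 0 else 1

theorem sgT_img (ep : Tau a b → F2) : sgT a b (QQ a b '' {s | ep s = 0}) = ep := by
  have hi : Function.Injective (QQ a b) := fun x y h => Subtype.ext h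
  have h01 : ∀ x : F2, ¬ x = 0 → x = 1 := by decide
  funext s
  rw [sgT, Function.Injective.mem_set_image hi, Set.mem_setOf_eq]
  by_cases h : ep s = 0
  · rw [if_pos h, h]
  · rw [if_neg h, h01 _ h]

include H in
theorem img_sgT {T : Set k[X]} (hT : ∀ Q ∈ T, Q.Monic ∧ Irreducible Q ∧ Q ∣ a * b * (a - b)) :
    QQ a b '' {s | sgT a b T s = 0} = T := by
  ext Q
  constructor
  · rintro ⟨s, hs, rfl⟩
    by_contra h
    have : sgT a b T s = 1 := if_neg h
    have hs' : sgT a b T s = 0 := hs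
    rw [this] at hs'
    exact one_ne_zero hs'
  · intro hQ
    exact ⟨⟨Q, (mem_bp H).2 (hT Q hQ)⟩, if_pos hQ, rfl⟩

include H in
/-- the class of a set of primes -/
theorem mem_cls {T : Set k[X]} (hT : ∀ Q ∈ T, Q.Monic ∧ Irreducible Q ∧ Q ∣ a * b * (a - b) ∧
    ¬ EvM Q (a * b * (a - b))) {n : ℕ} {D : k[X]} :
    (D ∈ Tw a b n ∧ splS a b D = T) ↔ (D ∈ Sf k n ∧ P1E a b (sgT a b T) D) := by
  have hT' : ∀ Q ∈ T, Q.Monic ∧ Irreducible Q ∧ Q ∣ a * b * (a - b) := fun Q h =>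
    ⟨(hT Q h).1, (hT Q h).2.1, (hT Q h).2.2.1⟩
  constructor
  · rintro ⟨h1, h2⟩
    obtain ⟨m1, m2, m3⟩ := (mem_Tw H).1 h1
    refine ⟨m1, m2, ?_⟩
    rw [gclE_iff, ← h2, splS_eq H m2, sgT_img]
  · rintro ⟨h1, h2, h3⟩
    rw [gclE_iff] at h3
    refine ⟨(mem_Tw H).2 ⟨h1, h2, fun s hs => ?_⟩, ?_⟩
    · rw [h3]
      apply if_neg
      intro h
      exact (hT _ h).2.2.2 ((tv_iff H s).1 hs)
    · rw [splS_eq H h2, h3, img_sgT H hT']

include H in
theorem sgT_hep {T : Set k[X]} (hT : ∀ Q ∈ T, Q.Monic ∧ Irreducible Q ∧ Q ∣ a * b * (a - b) ∧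
    ¬ EvM Q (a * b * (a - b))) (s : Tau a b) (hs : tv a b s = 0) : sgT a b T s = 1 := by
  apply if_neg
  intro h
  exact (hT _ h).2.2.2 ((tv_iff H s).1 hs)

include H in
theorem sgT_spn {T : Set k[X]} (hT : ∀ Q ∈ T, Q.Monic ∧ Irreducible Q ∧ Q ∣ a * b * (a - b) ∧
    ¬ EvM Q (a * b * (a - b))) : spn (sgT a b T) = T.ncard := by
  rw [← ncard_img, img_sgT H (fun Q h => ⟨(hT Q h).1, (hT Q h).2.1, (hT Q h).2.2.1⟩)]

end Pool.Agent.V8H26.YA
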