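import Pool.Agent.V8H26.YA.Sel
import Pool.Agent.V8H26.XA.End

/-!
# The 2-Selmer group and the group of points
-/

set_option autoImplicit false
set_option linter.all false

open Polynomial IsDedekindDomain WeierstrassCurve WeierstrassCurve.Affine Filter Topology
open scoped Classical

namespace Pool.Agent.V8H26.YA

open Pool.Agent.TH115.GD Pool.Agent.H341R2.Sharp Finset Pool.Agent.Y164.PS Pool.Agent.V8H26.XA
open Pool.Agent.V8H26.YL (DE dt dt_apply dt_comm FB FB_apply FB_eq FF_key Eb Eb_add Eb_TT clA clE dE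
  P1E P2E gclE clE_iff be be_mem Cvp_Fe sp)
open Pool.Agent.V8H26.XL (Arr arr dm F2s F2c)

section
variable {k K : Type} [Field k] [Fintype k] [DecidableEq k] [Field K] [Algebra k[X] K]
  [IsFractionRing k[X] K]
variable {a b : k[X]} {N : ℕ} (H : Hyp a b N) {ep : Tau a b → F2}
  (hep : ∀ s, tv a b s = 0 → ep s = 1)
variable {ι : Type} [Fintype ι] {P : ι → k[X]} (hR : Fam (RR a b P))

include H hR in
/-- If the kernel is trivial, then the Tate-Shafarevich group has trivial 2-primary part, and all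
points are twice a point plus a point of order two. -/
theorem good_of_trivE (hcl : clE (dE H hep) (QQ a b) P)
    (hN : ∑ i, ((P i).natDegree : F2) + (N : F2) = 1)
    (h0 : Pool.Agent.V8H26.YL.rk H hep P = 0) :
    ShaTwo k (crv (al K a P) (al K b P)) ∧
      ∀ Q : Pt (crv (al K a P) (al K b P)) K, ∃ R T : Pt (crv (al K a P) (al K b P)) K,
        T + T = 0 ∧ Q = R + R + T := by
  have h2 := two_ne H
  obtain ⟨t1, t2, t3⟩ := tw_ne H hR
  have inj := IsFractionRing.injective k[X] K
  have h2K : (2 : K) ≠ 0 := tt h2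
  have haK : al K a P ≠ 0 := by
    rw [al, Ne, IsFractionRing.to_map_eq_zero_iff]; exact t1
  have hbK : al K b P ≠ 0 := by
    rw [al, Ne, IsFractionRing.to_map_eq_zero_iff]; exact t2
  have habK : al K a P ≠ al K b P := fun h => t3 (inj h)
  constructor
  · apply sha_of_points h2K haK hbK habK
    intro a0 a1 n0 n1 hls
    obtain ⟨T, -, q0, q1⟩ := sel_mainE H hep hR hcl hN h0 n0 n1 hls
    exact ⟨T, q0, q1⟩
  · intro Q
    have hE := isE (al K a P) (al K b P) K h2K haK hbK habK
    obtain ⟨T, hTT, q0, q1⟩ := sel_mainE H hep hR hcl hN h0 (d0_ne hE Q) (d1_ne hE Q)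
      (ls_of_point (k := k) h2K haK hbK habK Q)
    obtain ⟨u0, u1, m0, m1, f0, f1⟩ := d_add (K := K) (F := K) (Ω := Sep K)
      (crv (al K a P) (al K b P)) (isE (al K a P) (al K b P) (Sep K) h2K haK hbK habK) Q T
    have s0 : SqEq (d0 (al K a P) (al K b P) (Q + T)) 1 := by
      refine SqEq.trans ⟨u0, m0, f0⟩ ?_
      have h3 := q0.mul (SqEq.refl (d0 (al K a P) (al K b P) T))
      refine h3.trans ?_
      rw [← pow_two]
      exact SqEq.sq (d0_ne hE T)
    have s1 : SqEq (d1 (al K a P) (al K b P) (Q + T)) 1 := by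
      refine SqEq.trans ⟨u1, m1, f1⟩ ?_
      have h3 := q1.mul (SqEq.refl (d1 (al K a P) (al K b P) T))
      refine h3.trans ?_
      rw [← pow_two]
      exact SqEq.sq (d1_ne hE T)
    obtain ⟨R, hRR⟩ := half_F h2K haK hbK habK (Q + T) s0 s1
    refine ⟨R, T, hTT, ?_⟩
    rw [hRR, add_assoc, hTT, add_zero]

include hR in
/-- the kernel is zero if and only if the group of points is finite and the Tate-Shafarevich group
has no 2-primary part -/
theorem rk_zero_iffE (hcl : clE (dE H hep) (QQ a b) P)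
    (hN : ∑ i, ((P i).natDegree : F2) + (N : F2) = 1) :
    Pool.Agent.V8H26.YL.rk H hep P = 0 ↔
      Finite (Pt (crv (al K a P) (al K b P)) K) ∧ ShaTwo k (crv (al K a P) (al K b P)) := by
  have h2 := two_ne H
  obtain ⟨t1, t2, t3⟩ := tw_ne H hR
  have inj := IsFractionRing.injective k[X] K
  have h2K : (2 : K) ≠ 0 := tt h2
  have haK : al K a P ≠ 0 := by
    rw [al, Ne, IsFractionRing.to_map_eq_zero_iff]; exact t1
  have hbK : al K b P ≠ 0 := by
    rw [al, Ne, IsFractionRing.to_map_eq_zero_iff]; exact t2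
  have habK : al K a P ≠ al K b P := fun h => t3 (inj h)
  constructor
  · intro h
    obtain ⟨g1, g2⟩ := good_of_trivE (K := K) H hep hR hcl hN h
    exact ⟨fin_points h2 t1 t2 t3 g2, g1⟩
  · rintro ⟨h, h'⟩
    have h3 := sl_le (k := k) h2K haK hbK habK h h'
    rw [sel_cardE H hep hR hcl hN] at h3
    by_contra h4
    have h5 : 2 ^ 3 ≤ 2 ^ (2 + Pool.Agent.V8H26.YL.rk H hep P) :=
      Nat.pow_le_pow_right (by norm_num) (by omega)
    omega

/-- the number of the signs which are zero -/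
noncomputable def spn (ep : Tau a b → F2) : ℕ := (univ.filter fun s => ep s = 0).card

/-- the parity of the dimension -/
theorem rk_modE {ι : Type} [Fintype ι] {P : ι → k[X]} (j : ι)
    (hcl : clE (dE H hep) (QQ a b) P) (hN : ∑ i, ((P i).natDegree : F2) + (N : F2) = 1)
    (hτ : Nonempty (Tau a b)) : Pool.Agent.V8H26.YL.rk H hep P % 2 = spn ep % 2 := by
  have h := Pool.Agent.V8H26.YL.r0_eq (D := dE H hep) (d := dm P)
    (a := arr H.hm (QQ a b) P) hcl hN j
  show Pool.Agent.V8H26.YL.r0 (dE H hep) (dm P) (arr H.hm (QQ a b) P) % 2 = _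
  rw [h]
  exact Pool.Agent.V8H26.YL.rho_mod hτ _ _ _

end

section
variable {k : Type} [Field k] [Fintype k] [DecidableEq k] (K : Type) [Field K] [Algebra k[X] K]
  [IsFractionRing k[X] K]
variable {a b : k[X]} {N : ℕ} (H : Hyp a b N) {ep : Tau a b → F2}
  (hep : ∀ s, tv a b s = 0 → ep s = 1)

include H hep in
/-- the statement for one polynomial in a class -/
theorem one_cls {n : ℕ} (hn : 1 ≤ n) (ho : (n : F2) + (N : F2) = 1) (hτ : Nonempty (Tau a b))
    {D : k[X]} (hSf : D ∈ Sf k n) (hP1 : P1E a b ep D) :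
    (∃ r : ℕ, r % 2 = spn ep % 2 ∧ so k K a b D = 2 ^ (r + 2)) ∧
      (so k K a b D = 4 ↔
        Finite (Pt (crv (algebraMap k[X] K (a * D)) (algebraMap k[X] K (b * D))) K) ∧
        ShaTwo k (crv (algebraMap k[X] K (a * D)) (algebraMap k[X] K (b * D)))) := by
  obtain ⟨m1, m2, m3⟩ := mem_Sf.1 hSf
  have hmp := fun P => (mem_pf (P := P) m1.ne_zero)
  have hTp : (fun i : pf D => (i : k[X])) ∈ Tp k (pf D) n := by
    rw [mem_Tp]
    refine ⟨fun i => ?_, ?_⟩
    · have := (hmp i.1).1 i.2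
      exact ⟨this.1, this.2.1⟩
    · rw [Finset.sum_coe_sort (pf D) (fun P : k[X] => P.natDegree)]
      exact deg_pf hSf
  have hprod : ∏ i : pf D, (i : k[X]) = D := by
    rw [Finset.prod_coe_sort (pf D) (fun P : k[X] => P)]
    exact prod_pf hSf
  have hnb : nb a b (∏ i : pf D, (i : k[X])) := by rw [hprod]; exact hP1.1
  have hok : ok (QQ a b) (fun i : pf D => (i : k[X])) :=
    (ok_iff H hTp).2 ⟨Subtype.val_injective, hnb⟩
  have hcl : clE (dE H hep) (QQ a b) (fun i : pf D => (i : k[X])) :=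
    (clE_iff H hep hTp hnb).2 (by rw [hprod]; exact hP1.2)
  have h7 := (mem_Tp.1 hTp)
  have hR : Fam (Sum.elim (fun i : pf D => (i : k[X])) (QQ a b)) := by
    refine ⟨?_, ?_, hok⟩
    · rintro (i | s)
      · exact (h7.1 i).1
      · exact H.fam.mon s
    · rintro (i | s)
      · exact (h7.1 i).2
      · exact H.fam.irr s
  have hN : ∑ i : pf D, (((i : k[X]).natDegree : F2)) + (N : F2) = 1 := by
    have h9 : ∑ i : pf D, (((i : k[X]).natDegree : F2)) = (n : F2) := by
      have h10 := congrArg (fun x : ℕ => (x : F2)) h7.2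
      simp only [Nat.cast_sum] at h10
      exact h10
    rw [h9]
    exact ho
  obtain ⟨j⟩ : Nonempty (pf D) := by
    by_contra h
    rw [not_nonempty_iff] at h
    have h11 := h7.2
    rw [Finset.univ_eq_empty, Finset.sum_empty] at h11
    omega
  have h12 : so k K a b (∏ i : pf D, (i : k[X])) = _ := sel_cardE (K := K) H hep hR hcl hN
  have h13 := rk_modE H hep j hcl hN hτ
  have h14 := rk_zero_iffE (K := K) H hep hR hcl hN
  rw [al, al, hprod] at h14
  rw [hprod] at h12
  rw [h12]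
  constructor
  · exact ⟨_, h13, by rw [add_comm]⟩
  · rw [← h14]
    constructor
    · intro h
      have h15 : 2 ^ (2 + Pool.Agent.V8H26.YL.rk H hep fun i : pf D => (i : k[X])) = 2 ^ 2 := h
      have := Nat.pow_right_injective (le_refl 2) h15
      omega
    · intro h
      rw [h]
      norm_num

include H hep in
/-- the law in a class -/
theorem law_cls (hq : 4 ≤ Fintype.card k)
    (h2t : ∀ u : W, u ≠ 0 → ∃ s, om u ((datum H).t s) ≠ 0) {r : ℕ} (hr : r % 2 = spn ep % 2) :
    Tendsto (fun n : ℕ => (((Sf k n).filter (P2E (fun D => so k K a b D = 2 ^ (r + 2)) a b ep)).card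
      : ℝ) / (((Sf k n).filter (P1E a b ep)).card : ℝ))
      (atTop ⊓ 𝓟 {n | (n : F2) + (N : F2) = 1}) (𝓝 (be r)) := by
  have hmain := Pool.Agent.V8H26.YL.main_law H hep hq h2t
  have hso : ∀ (ι : Type) [Fintype ι] (T : ι → k[X]), Fam (Sum.elim T (QQ a b)) →
      clE (dE H hep) (QQ a b) T → ∑ i, ((T i).natDegree : F2) + (N : F2) = 1 →
      so k K a b (∏ i, T i) = 2 ^ (2 + Pool.Agent.V8H26.YL.rk H hep T) := fun ι _ T hR hcl hN =>
    sel_cardE (K := K) H hep hR hcl hN
  have i1 : Pool.Agent.V8H26.YL.Imp1 H hep r (fun D => so k K a b D = 2 ^ (r + 2)) := by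
    intro ι _ T hR hcl hN hT
    show so k K a b (∏ i, T i) = _
    rw [hso ι T hR hcl hN, hT, add_comm]
  have i2 : Pool.Agent.V8H26.YL.Imp2 H hep r (fun D => so k K a b D = 2 ^ (r + 2)) := by
    intro ι _ T hR hcl hN hT
    have h3 : so k K a b (∏ i, T i) = _ := hT
    rw [hso ι T hR hcl hN] at h3
    have h4 := Nat.pow_right_injective (le_refl 2) h3
    omega
  obtain ⟨m1, m2⟩ := hmain.2 r (fun D => so k K a b D = 2 ^ (r + 2)) (be r) (be_mem r).1
    (be_mem r).2 (by
      have h5 : sp (dE H hep) = spn ep := rfl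
      rw [h5, ← hr]
      exact Cvp_Fe r)
  obtain ⟨c, hc, hpos⟩ := hmain.1
  rw [Metric.tendsto_nhds]
  intro ε hε
  have hε' : 0 < ε / 2 := half_pos hε
  rw [eventually_inf_principal]
  filter_upwards [m1 i1 _ hε', m2 i2 _ hε', hpos] with n h1 h3 h4 ho
  have h5 : (0 : ℝ) < (((Sf k n).filter (P1E a b ep)).card : ℝ) := by
    refine lt_of_lt_of_le ?_ (h4 ho)
    have : (0 : ℝ) < Fintype.card k := by exact_mod_cast Fintype.card_pos
    positivity
  rw [Real.dist_eq]
  have h6 := h1 ho
  have h7 := h3 ho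
  have h8 : |(((Sf k n).filter (P2E (fun D => so k K a b D = 2 ^ (r + 2)) a b ep)).card : ℝ) /
      (((Sf k n).filter (P1E a b ep)).card : ℝ) - be r| ≤ ε / 2 := by
    rw [abs_le]
    constructor
    · have := (le_div_iff₀ h5).2 h6
      linarith
    · have := (div_le_iff₀ h5).2 h7
      linarith
  exact h8.trans_lt (half_lt_self hε)

end

end Pool.Agent.V8H26.YA
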