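import Pool.Agent.V8H26.XA.Sel
import Pool.Agent.V8H26.YL.Cnt

/-!
# Local solubility at the places of split multiplicative reduction
-/

set_option autoImplicit false
set_option linter.all false

open Polynomial IsDedekindDomain WeierstrassCurve WeierstrassCurve.Affine
open scoped Classical

namespace Pool.Agent.V8H26.YA

open Pool.Agent.TH115.GD Pool.Agent.H341R2.Sharp Finset Pool.Agent.Y164.PS Pool.Agent.V8H26.XA

section finite
variable {κ : Type} [Field κ] [Finite κ]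

/-- a point on a conic -/
theorem res_pt (h2 : (2 : κ) ≠ 0) {β c : κ} (hβ : IsSquare β) (b0 : β ≠ 0) (hc : ¬ IsSquare c) :
    ∃ z : κ, z ≠ 0 ∧ SqEq c (z ^ 2 + β) := by
  letI : Fintype κ := Fintype.ofFinite κ
  obtain ⟨t, rfl⟩ := hβ
  have ht : t ≠ 0 := by
    rintro rfl
    exact b0 (mul_zero 0)
  have hodd : Fintype.card κ % 2 = 1 := FiniteField.odd_card_of_char_ne_two (by
    intro h
    apply h2
    have := ringChar.Nat.cast_ringChar (R := κ)
    rw [h] at this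
    exact_mod_cast this)
  obtain ⟨a, b, hab⟩ := FiniteField.exists_root_sum_quadratic (f := (X : κ[X]) ^ 2)
    (g := (X : κ[X]) ^ 2 - C c) (by rw [degree_X_pow]; rfl) (by
      rw [degree_X_pow_sub_C (by norm_num)]; rfl) hodd
  simp only [eval_pow, eval_X, eval_sub, eval_C] at hab
  have e : c = a ^ 2 + b ^ 2 := by linear_combination -hab
  have ha : a ≠ 0 := by
    rintro rfl
    apply hc
    exact ⟨b, by rw [e]; ring⟩
  have hb : b ≠ 0 := by
    rintro rfl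
    apply hc
    exact ⟨a, by rw [e]; ring⟩
  refine ⟨t * a / b, div_ne_zero (mul_ne_zero ht ha) hb, b / t, div_ne_zero hb ht, ?_⟩
  rw [e]
  field_simp

end finite

section place
variable {k K : Type} [Field k] [Finite k] [Field K] [Algebra k[X] K]
  [IsFractionRing k[X] K]

/-- a point of the reduction lifts -/
theorem lift_pl (h2 : (2 : k) ≠ 0) (v : HeightOneSpectrum k[X]) {π : k[X]} [hf : Fact (Irreducible π)]
    (hv : ∀ p, p ∈ v.asIdeal ↔ π ∣ p) {A B p0 p1 : k[X]} (h0 : ¬ π ∣ p0) (h1 : ¬ π ∣ p1)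
    {x : AdjoinRoot π} (x0 : x ≠ 0) (xa : x ≠ AdjoinRoot.mk π A)
    (hs : SqEq (x * (x - AdjoinRoot.mk π A) * (x - AdjoinRoot.mk π B)) 1)
    (q0 : SqEq (AdjoinRoot.mk π p0) x) (q1 : SqEq (AdjoinRoot.mk π p1) (x - AdjoinRoot.mk π A)) :
    ∃ x y : Comp k[X] K v,
      y ^ 2 = x * (x - algebraMap K (Comp k[X] K v) (algebraMap k[X] K A)) *
        (x - algebraMap K (Comp k[X] K v) (algebraMap k[X] K B)) ∧ x ≠ 0 ∧
      x ≠ algebraMap K (Comp k[X] K v) (algebraMap k[X] K A) ∧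
      SqEq (algebraMap K (Comp k[X] K v) (algebraMap k[X] K p0)) x ∧
      SqEq (algebraMap K (Comp k[X] K v) (algebraMap k[X] K p1))
        (x - algebraMap K (Comp k[X] K v) (algebraMap k[X] K A)) := by
  have hπ := hf.out
  have inj := IsFractionRing.injective k[X] K
  set m := AdjoinRoot.mk π with hm
  have ndm : ∀ {f g : k[X]}, ¬ π ∣ f → ¬ π ∣ g → ¬ π ∣ f * g := fun hf hg h =>
    (hπ.prime.dvd_or_dvd h).elim hf hg
  obtain ⟨x', rfl⟩ := AdjoinRoot.mk_surjective x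
  have xb : m x' - m B ≠ 0 := by
    intro h
    obtain ⟨c, hc, e⟩ := hs
    rw [h, mul_zero, mul_one] at e
    exact pow_ne_zero 2 hc e.symm
  have nx : ¬ π ∣ x' := fun h => x0 (AdjoinRoot.mk_eq_zero.2 h)
  have nxa : ¬ π ∣ x' - A := fun h => xa (by
    have h5 := AdjoinRoot.mk_eq_zero.2 h
    rw [map_sub] at h5
    exact sub_eq_zero.1 h5)
  have nxb : ¬ π ∣ x' - B := fun h => xb (by
    have h5 := AdjoinRoot.mk_eq_zero.2 h
    rw [map_sub] at h5
    exact h5)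
  set j := algebraMap K (Comp k[X] K v) with hj
  have h3 : SqEq (m (x' * (x' - A) * (x' - B))) (m 1) := by
    rw [map_mul, map_mul, map_sub, map_sub, map_one]
    exact hs
  have h4 := sqEq_mk (K := K) h2 v hv (ndm (ndm nx nxa) nxb)
    (fun h => hπ.not_isUnit (isUnit_of_dvd_one h)) h3
  obtain ⟨y'', -, ey⟩ := h4
  rw [map_one, map_one, mul_one] at ey
  refine ⟨j (algebraMap k[X] K x'), y'', ?_, ?_, ?_, ?_, ?_⟩
  · rw [← ey]
    simp only [map_mul, map_sub]
    rfl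
  · intro h5
    apply nx
    have h6 : algebraMap k[X] K x' = 0 := by simpa using h5
    have h7 : x' = 0 := by simpa using h6
    rw [h7]; exact dvd_zero _
  · intro h5
    apply nxa
    have h6 := inj (j.injective h5)
    rw [h6, sub_self]; exact dvd_zero _
  · exact sqEq_mk (K := K) h2 v hv h0 nx q0
  · rw [← map_sub, ← map_sub]
    rw [← map_sub] at q1
    exact sqEq_mk (K := K) h2 v hv h1 nxa q1

end place

section split
variable {k K : Type} [Field k] [Fintype k] [DecidableEq k] [Field K] [Algebra k[X] K]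
  [IsFractionRing k[X] K]

/-- the symbols in the residue field -/
theorem res_sq (hk : ringChar k ≠ 2) {π : k[X]} (hm : π.Monic) [hf : Fact (Irreducible π)]
    {f : k[X]} (hd : ¬ π ∣ f) :
    (L f π = 0 ↔ IsSquare (AdjoinRoot.mk π f)) := by
  rw [L_eq_zero_iff hk hm hf.out hd]
  constructor
  · rintro ⟨z, hz⟩
    refine ⟨AdjoinRoot.mk π z, ?_⟩
    have h1 := AdjoinRoot.mk_eq_zero.2 hz
    rw [map_sub, map_pow, sub_eq_zero] at h1
    rw [← h1, pow_two]
  · rintro ⟨z, hz⟩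
    obtain ⟨z', rfl⟩ := AdjoinRoot.mk_surjective z
    refine ⟨z', ?_⟩
    rw [← AdjoinRoot.mk_eq_zero, map_sub, map_pow, hz]
    ring

/-- local solubility at a node with rational tangents -/
theorem split_pl (hk : ringChar k ≠ 2) (h2 : (2 : k) ≠ 0) (hi : IsSquare (-1 : k))
    (v : HeightOneSpectrum k[X]) {π : k[X]} (hπ : Irreducible π) (hmo : π.Monic)
    (hv : ∀ p, p ∈ v.asIdeal ↔ π ∣ p) {A B p0 p1 : k[X]} (h0 : ¬ π ∣ p0) (h1 : ¬ π ∣ p1)
    (h : (π ∣ A ∧ ¬ π ∣ B ∧ L B π = 0 ∧ L p0 π = 1 ∧ L p1 π = 1) ∨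
      (¬ π ∣ A ∧ π ∣ B ∧ L A π = 0 ∧ L p0 π = 1 ∧ L p1 π = 0) ∨
      (¬ π ∣ A ∧ π ∣ A - B ∧ L A π = 0 ∧ L p0 π = 0 ∧ L p1 π = 1)) :
    ∃ x y : Comp k[X] K v,
      y ^ 2 = x * (x - algebraMap K (Comp k[X] K v) (algebraMap k[X] K A)) *
        (x - algebraMap K (Comp k[X] K v) (algebraMap k[X] K B)) ∧ x ≠ 0 ∧
      x ≠ algebraMap K (Comp k[X] K v) (algebraMap k[X] K A) ∧
      SqEq (algebraMap K (Comp k[X] K v) (algebraMap k[X] K p0)) x ∧
      SqEq (algebraMap K (Comp k[X] K v) (algebraMap k[X] K p1))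
        (x - algebraMap K (Comp k[X] K v) (algebraMap k[X] K A)) := by
  haveI : Fact (Irreducible π) := ⟨hπ⟩
  haveI : Module.Finite k (AdjoinRoot π) := (AdjoinRoot.powerBasis hπ.ne_zero).finite
  haveI : Finite (AdjoinRoot π) := Module.finite_of_finite k
  have mne : ∀ {f : k[X]}, ¬ π ∣ f → AdjoinRoot.mk π f ≠ 0 := fun h h' => h (AdjoinRoot.mk_eq_zero.1 h')
  have h2κ : (2 : AdjoinRoot π) ≠ 0 := by
    have h3 : AdjoinRoot.mk π (C 2) ≠ 0 := mne fun hd => hπ.not_isUnit (isUnit_of_dvd_unit hd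
      (isUnit_C.2 (isUnit_iff_ne_zero.2 h2)))
    have h4 : AdjoinRoot.mk π (C 2) = 2 := by rw [map_ofNat, map_ofNat]
    rwa [h4] at h3
  have F1 : ∀ {x : F2}, x = 1 → ¬ x = 0 := by decide
  have sq1 : ∀ {u : AdjoinRoot π}, u ≠ 0 → IsSquare u → SqEq u 1 := by
    rintro u hu ⟨z, rfl⟩
    refine ⟨z, ?_, by ring⟩
    rintro rfl
    exact hu (mul_zero 0)
  rcases h with ⟨a1, a2, a3, a4, a5⟩ | ⟨a1, a2, a3, a4, a5⟩ | ⟨a1, a2, a3, a4, a5⟩
  · have mA : AdjoinRoot.mk π A = 0 := AdjoinRoot.mk_eq_zero.2 a1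
    obtain ⟨z, hz, e⟩ := res_pt h2κ ((res_sq hk hmo a2).1 a3) (mne a2)
      (fun h => F1 a4 ((res_sq hk hmo h0).2 h))
    have x0 : z ^ 2 + AdjoinRoot.mk π B ≠ 0 := by
      intro h
      obtain ⟨c, hc, e'⟩ := e
      rw [h, mul_zero] at e'
      exact mne h0 e'
    refine lift_pl h2 v hv h0 h1 (x := z ^ 2 + AdjoinRoot.mk π B) x0 (by rw [mA]; exact x0) ?_ e ?_
    · rw [mA, sub_zero, add_sub_cancel_right]
      exact ⟨(z ^ 2 + AdjoinRoot.mk π B) * z, mul_ne_zero x0 hz, by ring⟩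
    · rw [mA, sub_zero]
      refine SqEq.trans ?_ e
      have h3 : L (p1 * p0) π = 0 := by
        rw [L_mul_nd (fun _ => trivial) hπ h1 h0, a4, a5]
        decide
      have h4 : ¬ π ∣ p1 * p0 := fun h => (hπ.prime.dvd_or_dvd h).elim h1 h0
      obtain ⟨u, hu⟩ := (res_sq hk hmo h4).1 h3
      rw [map_mul] at hu
      have n0 := mne h0
      have n1 := mne h1
      have hu0 : u ≠ 0 := by
        rintro rfl
        rw [mul_zero] at hu
        exact mul_ne_zero n1 n0 hu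
      refine ⟨u / AdjoinRoot.mk π p0, div_ne_zero hu0 n0, ?_⟩
      field_simp
      rw [hu]
      ring
  · have mB : AdjoinRoot.mk π B = 0 := AdjoinRoot.mk_eq_zero.2 a2
    obtain ⟨z, hz, e⟩ := res_pt h2κ ((res_sq hk hmo a1).1 a3) (mne a1)
      (fun h => F1 a4 ((res_sq hk hmo h0).2 h))
    have x0 : z ^ 2 + AdjoinRoot.mk π A ≠ 0 := by
      intro h
      obtain ⟨c, hc, e'⟩ := e
      rw [h, mul_zero] at e'
      exact mne h0 e'
    refine lift_pl h2 v hv h0 h1 (x := z ^ 2 + AdjoinRoot.mk π A) x0 ?_ ?_ e ?_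
    · intro h
      have : z ^ 2 = 0 := by linear_combination h
      exact hz (pow_eq_zero_iff (two_ne_zero) |>.1 this)
    · rw [mB, sub_zero, add_sub_cancel_right]
      exact ⟨(z ^ 2 + AdjoinRoot.mk π A) * z, mul_ne_zero x0 hz, by ring⟩
    · rw [add_sub_cancel_right]
      refine SqEq.trans (sq1 (mne h1) ((res_sq hk hmo h1).1 a5)) (SqEq.symm ⟨z, hz, by ring⟩)
  · have mAB : AdjoinRoot.mk π B = AdjoinRoot.mk π A := by
      have h3 := AdjoinRoot.mk_eq_zero.2 a2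
      rw [map_sub, sub_eq_zero] at h3
      exact h3.symm
    have hm1 : IsSquare (-AdjoinRoot.mk π A) := by
      obtain ⟨i, hi⟩ := hi
      obtain ⟨u, hu⟩ := (res_sq hk hmo a1).1 a3
      refine ⟨AdjoinRoot.mk π (C i) * u, ?_⟩
      have h3 : AdjoinRoot.mk π (C i) * AdjoinRoot.mk π (C i) = -1 := by
        rw [← map_mul, ← C_mul, ← hi, C_neg, C_1, map_neg, map_one]
      rw [hu]
      linear_combination -(u * u) * h3
    obtain ⟨z, hz, e⟩ := res_pt h2κ hm1 (neg_ne_zero.2 (mne a1))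
      (fun h => F1 a5 ((res_sq hk hmo h1).2 h))
    rw [← sub_eq_add_neg] at e
    have x0 : z ^ 2 - AdjoinRoot.mk π A ≠ 0 := by
      intro h
      obtain ⟨c, hc, e'⟩ := e
      rw [h, mul_zero] at e'
      exact mne h1 e'
    refine lift_pl h2 v hv h0 h1 (x := z ^ 2) (pow_ne_zero 2 hz) ?_ ?_ ?_ e
    · exact fun h => x0 (sub_eq_zero.2 h)
    · rw [mAB]
      exact ⟨z * (z ^ 2 - AdjoinRoot.mk π A), mul_ne_zero hz x0, by ring⟩
    · refine SqEq.trans (sq1 (mne h0) ((res_sq hk hmo h0).1 a4)) (SqEq.symm ⟨z, hz, by ring⟩)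

end split

end Pool.Agent.V8H26.YA
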