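import Pool.Agent.V8H26.YA.Loc

/-!
# The classes of the local points at the bad primes
-/

set_option autoImplicit false
set_option linter.all false

open Polynomial IsDedekindDomain WeierstrassCurve WeierstrassCurve.Affine
open scoped Classical

namespace Pool.Agent.V8H26.YA

open Pool.Agent.TH115.GD Pool.Agent.H341R2.Sharp Finset Pool.Agent.Y164.PS Pool.Agent.V8H26.XA

variable {k K : Type} [Field k] [Fintype k] [DecidableEq k] [Field K] [Algebra k[X] K]
  [IsFractionRing k[X] K]
variable {a b : k[X]} {N : ℕ} (H : Hyp a b N)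
variable {ι : Type} [Fintype ι] {P : ι → k[X]} (hR : Fam (RR a b P))

section pair

variable {a0 a1 : K} (hls : LSg (F := K) k (crv (al K a P) (al K b P)) (al K a P) (al K b P) a0 a1)
  {r0 r1 : k} {n0 n1 : ι ⊕ Tau a b → ℕ} {c0 c1 : K} (hr0 : r0 ≠ 0) (hr1 : r1 ≠ 0) (hc0 : c0 ≠ 0)
  (hc1 : c1 ≠ 0) (e0 : a0 = c0 ^ 2 * algebraMap k[X] K (el (RR a b P) r0 n0))
  (e1 : a1 = c1 ^ 2 * algebraMap k[X] K (el (RR a b P) r1 n1))

include hR hls hr0 hr1 hc0 hc1 e0 e1 in
theorem locQE (s : Tau a b) {es : F2}
    (hcs : es + ∑ i, BT (QQ a b) P i s + (datum H).g s = 0) (hes : tv a b s = 0 → es = 1) :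
    ∃ z : F2, (tv a b s = 0 → z = 0) ∧
      (((n0 (Sum.inr s) : F2), (n1 (Sum.inr s) : F2)) : W) = z • tv a b s ∧
      om (LW (RR a b P) r0 r1 n0 n1 (QQ a b s)) (tv a b s) = es * z := by
  have h2 := two_ne H
  obtain ⟨t1, t2, t3⟩ := tw_ne H hR
  obtain ⟨ea, eb, ec⟩ := tw_el (K := K) H hR
  obtain ⟨da, db, dc⟩ := dvd3 H
  have hcne : a - b ≠ 0 := sub_ne_zero.2 H.hab
  have la : a.leadingCoeff ≠ 0 := leadingCoeff_ne_zero.2 H.ha
  have lb : b.leadingCoeff ≠ 0 := leadingCoeff_ne_zero.2 H.hb
  have lc : (a - b).leadingCoeff ≠ 0 := leadingCoeff_ne_zero.2 hcne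
  have m1 : (-1 : k) ≠ 0 := by simp
  set v := plK (hR.irr (Sum.inr s)) with hv
  have hs := locR_fin h2 t1 t2 t3 hls v
  have hs' := hs
  obtain ⟨W', Q, u0, u1, hL, v0, v1, f0, f1⟩ := hs'
  have hH : Hens (wv v (F := K)) := hensK v h2
  have va : v.valuation K (al K a P) = WithZero.exp (-(mu a s.1 : ℤ)) := by
    rw [ea, val_el hR _ la]
    rfl
  have vb : v.valuation K (al K b P) = WithZero.exp (-(mu b s.1 : ℤ)) := by
    rw [eb, val_el hR _ lb]
    rfl
  have vc : v.valuation K (al K a P - al K b P) = WithZero.exp (-(mu (a - b) s.1 : ℤ)) := by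
    rw [ec, val_el hR _ lc]
    rfl
  have va1 : v.valuation K (al K a P) ≤ 1 := v.valuation_le_one _
  have vb1 : v.valuation K (al K b P) ≤ 1 := v.valuation_le_one _
  have vc1 : v.valuation K (al K a P - al K b P) ≤ 1 := by
    rw [ec]
    exact v.valuation_le_one _
  have z1 : ∀ {m : ℕ}, m = 0 → (WithZero.exp (-(m : ℤ)) : WithZero (Multiplicative ℤ)) = 1 := by
    rintro m rfl
    rfl
  have sqm : ∀ {m : ℕ}, IsSquare (WithZero.exp (-(m : ℤ)) : WithZero (Multiplicative ℤ)) ↔
      (m : F2) = 0 := by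
    intro m
    rw [isSquare_exp, even_neg, Int.even_coe_nat, cast_eq_zero_iff_even]
  have p0 := par_el (K := K) hR s hr0 hc0 e0
  have p1 := par_el (K := K) hR s hr1 hc1 e1
  have e01 : a0 * a1 = (c0 * c1) ^ 2 * algebraMap k[X] K (el (RR a b P) (r0 * r1) (n0 + n1)) := by
    rw [e0, e1, ← el_mul, map_mul]
    ring
  have p01 := par_el (K := K) hR s (mul_ne_zero hr0 hr1) (mul_ne_zero hc0 hc1) e01
  have hpar := parR (wv_coe (F := K) v) hs (M := 1) sq_one one_ne_zero va1 vb1
  have one_el : (1 : Comp k[X] K v) = algebraMap K (Comp k[X] K v) (algebraMap k[X] K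
      (el (RR a b P) (1 : k) (0 : ι ⊕ Tau a b → ℕ))) := by
    rw [el_one, map_one, map_one]
  have hadd : ∀ x : F2, x + x = 0 := F2_add_self
  rcases tri H s with ⟨h1, h2', h3⟩ | ⟨h1, h2', h3⟩ | ⟨h1, h2', h3⟩
  · -- type `a`
    have mb : mu b s.1 = 0 := mu_eq_zero h2'
    have mc : mu (a - b) s.1 = 0 := mu_eq_zero h3
    rw [z1 mb] at vb
    rw [z1 mc] at vc
    have hg : (datum H).g s = L b (QQ a b s) := if_pos h1
    rw [hg] at hcs
    have hLm : Lm (RR a b P) (-1 * b.leadingCoeff) (nn ι a b b) (QQ a b s) = es := by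
      rw [Lm_neg H lb, Lm_tw H H.hb db s h2']
      have : ∀ e x y : F2, e + x + y = 0 → x + y = e := by decide
      exact this _ _ _ hcs
    have negb : algebraMap K (Comp k[X] K v) (-(al K b P)) = algebraMap K (Comp k[X] K v)
        (algebraMap k[X] K (el (RR a b P) (-1 * b.leadingCoeff) (nn ι a b b))) := by
      rw [el_neg, map_neg (algebraMap k[X] K), ← eb]
    have htv : tv a b s = ((mu a s.1 : F2), (mu a s.1 : F2)) := by
      simp only [tv, mb, mc, Nat.cast_zero, add_zero]
    rcases F2_cases (mu a s.1 : F2) with hm | hm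
    · -- even
      rw [hm] at htv
      have he1 : es = 1 := hes htv
      rw [he1] at hLm
      refine ⟨0, fun _ => rfl, ?_, ?_⟩
      · have q01 := hpar.2.2 vb vc
        rw [p01, Pi.add_apply, Nat.cast_add] at q01
        have q0 : IsSquare (v.valuation K a0) := by
          rw [← wv_coe (F := K) v, f0, map_mul, map_pow, pow_two]
          refine IsSquare.mul ⟨_, rfl⟩ (evA hH hL ?_ ?_ ?_ ?_ Q)
          · show IsSquare (wv v (algebraMap K (Comp k[X] K v) (al K a P)))
            rw [wv_coe, va, sqm]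
            exact hm
          · show wv v (algebraMap K (Comp k[X] K v) (al K a P)) < 1
            rw [wv_coe, valK_lt, mem_plK]
            exact h1.mul_right _
          · show wv v (algebraMap K (Comp k[X] K v) (al K b P)) = 1
            rw [wv_coe, vb]
          · exact not_sq_of_Lm hR H.hk s (mul_ne_zero m1 lb) hLm (by rw [← map_neg]; exact negb)
        rw [p0] at q0
        rw [q0, zero_add] at q01
        rw [q0, q01, zero_smul]
        rfl
      · rw [htv, mul_zero]
        exact om_zero_right _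
    · -- odd
      rw [hm] at htv
      obtain ⟨k0, k1⟩ := oddRA (wv_coe (F := K) v) hs hH (by rw [va, sqm, hm]; exact one_ne_zero)
        va1 vb vc
      refine ⟨n0 (Sum.inr s), ?_, ?_⟩
      · intro h
        rw [htv] at h
        exact absurd (congrArg Prod.fst h) (one_ne_zero)
      rw [htv]
      have hom : om (LW (RR a b P) r0 r1 n0 n1 (QQ a b s)) (1, 1) =
          Lm (RR a b P) (r0 * r1) (n0 + n1) (QQ a b s) := by
        rw [Lm_mul hr0 hr1]
        simp only [om, LW, mul_one]
      rw [hom]
      rcases F2_cases (n0 (Sum.inr s) : F2) with hn | hn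
      · have k2 := k0 (p0.2 hn)
        rw [one_el] at k2
        obtain ⟨k3, k4⟩ := cmp_el hR H.hk s (mul_ne_zero hr0 hr1) one_ne_zero
          (mul_ne_zero hc0 hc1) e01 k2
        rw [Pi.add_apply, Nat.cast_add, hn, zero_add] at k3
        rw [k4, Lm_one, hn, k3, zero_smul, mul_zero]
        exact ⟨by simp, rfl⟩
      · have k2 := k1 (fun h => by rw [p0.1 h] at hn; exact zero_ne_one hn)
        rw [negb] at k2
        obtain ⟨k3, k4⟩ := cmp_el hR H.hk s (mul_ne_zero hr0 hr1) (mul_ne_zero m1 lb)
          (mul_ne_zero hc0 hc1) e01 k2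
        rw [Pi.add_apply, Nat.cast_add, hn] at k3
        have k5 : (nn ι a b b (Sum.inr s) : F2) = 0 := by
          show ((mu b s.1 : ℕ) : F2) = 0
          rw [mb, Nat.cast_zero]
        rw [k5] at k3
        have k6 : (n1 (Sum.inr s) : F2) = 1 := (F2_eq_of_add k3).symm
        rw [k4, hLm, hn, k6, one_smul, mul_one]
        exact ⟨rfl, rfl⟩
  · -- type `b`
    have ma : mu a s.1 = 0 := mu_eq_zero h1
    have mc : mu (a - b) s.1 = 0 := mu_eq_zero h3
    rw [z1 ma] at va
    rw [z1 mc] at vc
    have hg : (datum H).g s = L a (QQ a b s) := if_neg h1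
    rw [hg] at hcs
    have hLm : Lm (RR a b P) (-1 * a.leadingCoeff) (nn ι a b a) (QQ a b s) = es := by
      rw [Lm_neg H la, Lm_tw H H.ha da s h1]
      have : ∀ e x y : F2, e + x + y = 0 → x + y = e := by decide
      exact this _ _ _ hcs
    have nega : algebraMap K (Comp k[X] K v) (-(al K a P)) = algebraMap K (Comp k[X] K v)
        (algebraMap k[X] K (el (RR a b P) (-1 * a.leadingCoeff) (nn ι a b a))) := by
      rw [el_neg, map_neg (algebraMap k[X] K), ← ea]
    have htv : tv a b s = ((mu b s.1 : F2), 0) := by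
      simp only [tv, ma, mc, Nat.cast_zero, add_zero, zero_add]
    rcases F2_cases (mu b s.1 : F2) with hm | hm
    · -- even
      rw [hm] at htv
      have he1 : es = 1 := hes htv
      rw [he1] at hLm
      refine ⟨0, fun _ => rfl, ?_, ?_⟩
      · have q1 := hpar.2.1 va vc
        rw [p1] at q1
        have q0 : IsSquare (v.valuation K a0) := by
          rw [← wv_coe (F := K) v, f0, map_mul, map_pow, pow_two]
          refine IsSquare.mul ⟨_, rfl⟩ (evB hH hL ?_ ?_ ?_ ?_ Q)
          · show wv v (algebraMap K (Comp k[X] K v) (al K a P)) = 1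
            rw [wv_coe, va]
          · show IsSquare (wv v (algebraMap K (Comp k[X] K v) (al K b P)))
            rw [wv_coe, vb, sqm]
            exact hm
          · show wv v (algebraMap K (Comp k[X] K v) (al K b P)) < 1
            rw [wv_coe, valK_lt, mem_plK]
            exact h2'.mul_right _
          · exact not_sq_of_Lm hR H.hk s (mul_ne_zero m1 la) hLm (by rw [← map_neg]; exact nega)
        rw [p0] at q0
        rw [q0, q1, zero_smul]
        rfl
      · rw [htv, mul_zero]
        exact om_zero_right _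
    · -- odd
      rw [hm] at htv
      obtain ⟨k0, k1⟩ := oddRB (wv_coe (F := K) v) hs hH va (by rw [vb, sqm, hm]; exact one_ne_zero)
        vb1 vc
      refine ⟨n0 (Sum.inr s), ?_, ?_⟩
      · intro h
        rw [htv] at h
        exact absurd (congrArg Prod.fst h) (one_ne_zero)
      rw [htv]
      have hom : om (LW (RR a b P) r0 r1 n0 n1 (QQ a b s)) (1, 0) =
          Lm (RR a b P) r1 n1 (QQ a b s) := by
        simp only [om, LW, mul_one, mul_zero, zero_add]
      rw [hom]
      rcases F2_cases (n0 (Sum.inr s) : F2) with hn | hn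
      · have k2 := k0 (p0.2 hn)
        rw [one_el] at k2
        obtain ⟨k3, k4⟩ := cmp_el hR H.hk s hr1 one_ne_zero hc1 e1 k2
        rw [Pi.zero_apply, Nat.cast_zero] at k3
        rw [k4, Lm_one, hn, k3, zero_smul, mul_zero]
        exact ⟨by simp, rfl⟩
      · have k2 := k1 (fun h => by rw [p0.1 h] at hn; exact zero_ne_one hn)
        rw [nega] at k2
        obtain ⟨k3, k4⟩ := cmp_el hR H.hk s hr1 (mul_ne_zero m1 la) hc1 e1 k2
        have k5 : (nn ι a b a (Sum.inr s) : F2) = 0 := by
          show ((mu a s.1 : ℕ) : F2) = 0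
          rw [ma, Nat.cast_zero]
        rw [k5] at k3
        rw [k4, hLm, hn, k3, one_smul, mul_one]
        exact ⟨rfl, rfl⟩
  · -- type `a - b`
    have ma : mu a s.1 = 0 := mu_eq_zero h1
    have mb : mu b s.1 = 0 := mu_eq_zero h2'
    rw [z1 ma] at va
    rw [z1 mb] at vb
    have hg : (datum H).g s = L a (QQ a b s) := if_neg h1
    rw [hg] at hcs
    have hLm : Lm (RR a b P) a.leadingCoeff (nn ι a b a) (QQ a b s) = es := by
      rw [Lm_tw H H.ha da s h1]
      have : ∀ e x y : F2, e + x + y = 0 → x + y = e := by decide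
      exact this _ _ _ hcs
    have posa : algebraMap K (Comp k[X] K v) (al K a P) = algebraMap K (Comp k[X] K v)
        (algebraMap k[X] K (el (RR a b P) (a.leadingCoeff) (nn ι a b a))) := by
      rw [← ea]
    have htv : tv a b s = (0, (mu (a - b) s.1 : F2)) := by
      simp only [tv, ma, mb, Nat.cast_zero, add_zero, zero_add]
    rcases F2_cases (mu (a - b) s.1 : F2) with hm | hm
    · -- even
      rw [hm] at htv
      have he1 : es = 1 := hes htv
      rw [he1] at hLm
      refine ⟨0, fun _ => rfl, ?_, ?_⟩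
      · have q0 := hpar.1 va vb
        rw [p0] at q0
        have q1 : IsSquare (v.valuation K a1) := by
          rw [← wv_coe (F := K) v, f1, map_mul, map_pow, pow_two]
          refine IsSquare.mul ⟨_, rfl⟩ (evC hH hL ?_ ?_ ?_ ?_ ?_ Q)
          · show wv v (algebraMap K (Comp k[X] K v) (al K a P)) = 1
            rw [wv_coe, va]
          · show wv v (algebraMap K (Comp k[X] K v) (al K b P)) = 1
            rw [wv_coe, vb]
          · rw [← map_sub]
            show IsSquare (wv v (algebraMap K (Comp k[X] K v) (al K a P - al K b P)))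
            rw [wv_coe, vc, sqm]
            exact hm
          · rw [← map_sub]
            show wv v (algebraMap K (Comp k[X] K v) (al K a P - al K b P)) < 1
            rw [wv_coe, al, al, ← map_sub, valK_lt, mem_plK, ← sub_mul]
            exact h3.mul_right _
          · exact not_sq_of_Lm hR H.hk s la hLm posa
        rw [p1] at q1
        rw [q0, q1, zero_smul]
        rfl
      · rw [htv, mul_zero]
        exact om_zero_right _
    · -- odd
      rw [hm] at htv
      obtain ⟨k0, k1⟩ := oddRC (wv_coe (F := K) v) hs hH va vb (by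
        show ¬ IsSquare (v.valuation K (al K a P - al K b P))
        rw [vc, sqm, hm]; exact one_ne_zero) vc1
      refine ⟨n1 (Sum.inr s), ?_, ?_⟩
      · intro h
        rw [htv] at h
        exact absurd (congrArg Prod.snd h) (one_ne_zero)
      rw [htv]
      have hom : om (LW (RR a b P) r0 r1 n0 n1 (QQ a b s)) (0, 1) =
          Lm (RR a b P) r0 n0 (QQ a b s) := by
        simp only [om, LW, mul_one, mul_zero, add_zero]
      rw [hom]
      rcases F2_cases (n1 (Sum.inr s) : F2) with hn | hn
      · have k2 := k0 (p1.2 hn)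
        rw [one_el] at k2
        obtain ⟨k3, k4⟩ := cmp_el hR H.hk s hr0 one_ne_zero hc0 e0 k2
        rw [Pi.zero_apply, Nat.cast_zero] at k3
        rw [k4, Lm_one, hn, k3, zero_smul, mul_zero]
        exact ⟨by simp, rfl⟩
      · have k2 := k1 (fun h => by rw [p1.1 h] at hn; exact zero_ne_one hn)
        rw [posa] at k2
        obtain ⟨k3, k4⟩ := cmp_el hR H.hk s hr0 la hc0 e0 k2
        have k5 : (nn ι a b a (Sum.inr s) : F2) = 0 := by
          show ((mu a s.1 : ℕ) : F2) = 0
          rw [ma, Nat.cast_zero]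
        rw [k5] at k3
        rw [k4, hLm, hn, k3, one_smul, mul_one]
        exact ⟨rfl, rfl⟩

end pair

end Pool.Agent.V8H26.YA
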