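import Pool.Agent.V8H26.YA.Sol

/-!
# The order of the 2-Selmer group
-/

set_option autoImplicit false
set_option linter.all false

open Polynomial IsDedekindDomain WeierstrassCurve WeierstrassCurve.Affine
open scoped Classical

namespace Pool.Agent.V8H26.YA

open Pool.Agent.TH115.GD Pool.Agent.H341R2.Sharp Finset Pool.Agent.Y164.PS Pool.Agent.V8H26.XA
open Pool.Agent.V8H26.YL (DE dt dt_apply dt_comm FB FB_apply FB_eq FF_key Eb Eb_add Eb_TT clA clE dE)
open Pool.Agent.V8H26.XL (Arr arr dm F2s F2c)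

section
variable {k K : Type} [Field k] [Fintype k] [DecidableEq k] [Field K] [Algebra k[X] K]
  [IsFractionRing k[X] K]
variable {a b : k[X]} {N : ℕ} (H : Hyp a b N) {ep : Tau a b → F2}
  (hep : ∀ s, tv a b s = 0 → ep s = 1)
variable {ι : Type} [Fintype ι] {P : ι → k[X]} (hR : Fam (RR a b P))

include H hR in
/-- the vector of a locally soluble pair -/
theorem sel_vecE (hcl : clE (dE H hep) (QQ a b) P) {a0 a1 : K} (ha0 : a0 ≠ 0) (ha1 : a1 ≠ 0)
    (hls : LSg (F := K) k (crv (al K a P) (al K b P)) (al K a P) (al K b P) a0 a1) :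
    ∃ (r0 r1 : k) (n0 n1 : ι ⊕ Tau a b → ℕ) (c0 c1 : K) (w : V ι (Tau a b)),
      r0 ≠ 0 ∧ r1 ≠ 0 ∧ c0 ≠ 0 ∧ c1 ≠ 0 ∧ a0 = c0 ^ 2 * algebraMap k[X] K (el (RR a b P) r0 n0) ∧
      a1 = c1 ^ 2 * algebraMap k[X] K (el (RR a b P) r1 n1) ∧
      (∀ i, (((n0 (Sum.inl i) : F2), (n1 (Sum.inl i) : F2)) : W) = w.1 i) ∧
      (∀ s, (((n0 (Sum.inr s) : F2), (n1 (Sum.inr s) : F2)) : W) = w.2 s • tv a b s) ∧
      (∀ i, E1 (A := AT P) (datum H) (BT (QQ a b) P) (fun i => ((P i).natDegree : F2)) w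
        (ch r0, ch r1) i = 0) ∧
      ∀ s, Eb (dE H hep) (BT (QQ a b) P) w (ch r0, ch r1) s = 0 := by
  have h2 := two_ne H
  obtain ⟨t1, t2, t3⟩ := tw_ne H hR
  have inj := IsFractionRing.injective k[X] K
  have h2K : (2 : K) ≠ 0 := tt h2
  have haK : al K a P ≠ 0 := by
    rw [al, Ne, IsFractionRing.to_map_eq_zero_iff]; exact t1
  have hbK : al K b P ≠ 0 := by
    rw [al, Ne, IsFractionRing.to_map_eq_zero_iff]; exact t2
  have habK : al K a P ≠ al K b P := fun h => t3 (inj h)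
  have hpar : ∀ v : HeightOneSpectrum k[X], a * b * (a - b) * ∏ i, P i ∉ v.asIdeal →
      IsSquare (v.valuation K a0) ∧ IsSquare (v.valuation K a1) := by
    intro v hv
    have hs := locR_fin h2 t1 t2 t3 hls v
    have m1 : a * ∏ i, P i ∉ v.asIdeal := by
      intro h
      apply hv
      have : a * b * (a - b) * ∏ i, P i = (b * (a - b)) * (a * ∏ i, P i) := by ring
      rw [this]
      exact v.asIdeal.mul_mem_left _ h
    have m2 : b * ∏ i, P i ∉ v.asIdeal := by
      intro h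
      apply hv
      have : a * b * (a - b) * ∏ i, P i = (a * (a - b)) * (b * ∏ i, P i) := by ring
      rw [this]
      exact v.asIdeal.mul_mem_left _ h
    have m3 : (a - b) * ∏ i, P i ∉ v.asIdeal := by
      intro h
      apply hv
      have : a * b * (a - b) * ∏ i, P i = (a * b) * ((a - b) * ∏ i, P i) := by ring
      rw [this]
      exact v.asIdeal.mul_mem_left _ h
    have q1 : v.valuation K (al K a P) = 1 := (valK_one v).2 m1
    have q2 : v.valuation K (al K b P) = 1 := (valK_one v).2 m2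
    have q3 : v.valuation K (al K a P - al K b P) = 1 := by
      rw [al, al, ← map_sub, ← sub_mul]
      exact (valK_one v).2 m3
    have g := parR (wv_coe (F := K) v) hs (M := 1) sq_one one_ne_zero q1.le q2.le
    exact ⟨g.1 q1 q2, g.2.1 q1 q3⟩
  obtain ⟨r0, n0, c0, hr0, hc0, e0⟩ := dec1 H hR ha0 fun v hv => (hpar v hv).1
  obtain ⟨r1, n1, c1, hr1, hc1, e1⟩ := dec1 H hR ha1 fun v hv => (hpar v hv).2
  have hP := locP H hR hls hr0 hr1 hc0 hc1 e0 e1
  have hQ : ∀ s, ∃ z : F2, (tv a b s = 0 → z = 0) ∧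
      (((n0 (Sum.inr s) : F2), (n1 (Sum.inr s) : F2)) : W) = z • tv a b s ∧
      om (LW (RR a b P) r0 r1 n0 n1 (QQ a b s)) (tv a b s) = ep s * z := fun s =>
    locQE H hR hls hr0 hr1 hc0 hc1 e0 e1 s (hcl s) (hep s)
  choose z hz0 hz1 hz2 using hQ
  set w : V ι (Tau a b) := (fun i => ((n0 (Sum.inl i) : F2), (n1 (Sum.inl i) : F2)), z) with hw
  set x0 : W := (ch r0, ch r1) with hx0
  have hz1' : ∀ s, (((n0 (Sum.inr s) : F2), (n1 (Sum.inr s) : F2)) : W) = z s • tv a b s := hz1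
  have E1z : ∀ i, E1 (A := AT P) (datum H) (BT (QQ a b) P) (fun i => ((P i).natDegree : F2)) w x0 i
      = 0 := by
    intro i
    obtain ⟨y, hy, hLW⟩ := hP i
    rw [LW_eq, LW_eq, rp_ch H] at hLW
    simp only [np_inl, np_inr H, hz1'] at hLW
    apply E1_of (k := k)
    have hy' : w.1 i = y := hy
    rw [hy']
    have a1 : ∀ j, AT P i j = L (P j) (P i) := fun j => by rw [AT, L_comm H.hm]
    have a2 : ∀ s, BT (QQ a b) P i s = L (QQ a b s) (P i) := fun s => by rw [BT, L_comm H.hm]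
    simp only [a1, a2]
    exact hLW
  have E2z : ∀ s, Eb (dE H hep) (BT (QQ a b) P) w x0 s = 0 := by
    intro s
    have h1 := hz2 s
    rw [LW_eq] at h1
    simp only [hz1', om_add_left, om_sum_left, om_smul_left] at h1
    have a1 : ∀ s', (datum H).G s s' = L (QQ a b s') (QQ a b s) := fun s' => L_comm H.hm _ _
    have h2 : Eb (dE H hep) (BT (QQ a b) P) w x0 s = w.2 s +
        (∑ i, L (P i) (QQ a b s) * om (w.1 i) (tv a b s) +
        ∑ s', L (QQ a b s') (QQ a b s) * (w.2 s' * om (tv a b s') (tv a b s)) +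
        ((QQ a b s).natDegree : F2) * om x0 (tv a b s)) + (1 + ep s) * w.2 s := by
      have h4 : E2 (ι := ι) (datum H) (BT (QQ a b) P) w x0 s =
          w.2 s + (∑ i, L (P i) (QQ a b s) * om (w.1 i) (tv a b s) +
          ∑ s', L (QQ a b s') (QQ a b s) * (w.2 s' * om (tv a b s') (tv a b s)) +
          ((QQ a b s).natDegree : F2) * om x0 (tv a b s)) := by
        simp only [E2, a1, ← add_assoc]
        rfl
      rw [← h4]
      rfl
    have h3 : ∀ e p q : F2, q = e * p → p + q + (1 + e) * p = 0 := by decide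
    rw [h2]
    exact h3 _ _ _ h1
  exact ⟨r0, r1, n0, n1, c0, c1, w, hr0, hr1, hc0, hc1, e0, e1, fun i => rfl, hz1', E1z, E2z⟩

/-- the kernel -/
noncomputable def KrE (P : ι → k[X]) : Submodule (ZMod 2) (V ι (Tau a b)) :=
  Pool.Agent.V8H26.XL.kr (FB (dE H hep) (dm P) (arr H.hm (QQ a b) P))
    (Pool.Agent.V8H26.XL.V0 (datum H) (dm P))

theorem mem_KrE {u : V ι (Tau a b)} : u ∈ KrE H hep P ↔
    dg (datum H) (fun i => ((P i).natDegree : F2)) u = 0 ∧
    ∀ v, dg (datum H) (fun i => ((P i).natDegree : F2)) v = 0 →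
      FB (dE H hep) (dm P) (arr H.hm (QQ a b) P) u v = 0 := by
  constructor
  · intro h
    exact ⟨(Pool.Agent.V8H26.XL.mem_V0 _ _).1 h.1,
      fun v hv => h.2 v ((Pool.Agent.V8H26.XL.mem_V0 _ _).2 hv)⟩
  · intro h
    exact ⟨(Pool.Agent.V8H26.XL.mem_V0 _ _).2 h.1,
      fun v hv => h.2 v ((Pool.Agent.V8H26.XL.mem_V0 _ _).1 hv)⟩

theorem card_KrE : Nat.card (KrE H hep P) = 2 ^ Pool.Agent.V8H26.YL.rk H hep P := by
  have h1 : Pool.Agent.V8H26.YL.rk H hep P = Module.finrank (ZMod 2) (KrE H hep P) := rfl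
  rw [h1, Module.natCard_eq_pow_finrank (K := ZMod 2), Nat.card_zmod]

variable (hcl : clE (dE H hep) (QQ a b) P)
  (hN : ∑ i, ((P i).natDegree : F2) + (N : F2) = 1)

include hcl hN in
theorem kr_EE {u : V ι (Tau a b)} (hu : u ∈ KrE H hep P) :
    (∀ i, E1 (A := AT P) (datum H) (BT (QQ a b) P) (fun i => ((P i).natDegree : F2)) u 0 i = 0) ∧
    ∀ s, Eb (dE H hep) (BT (QQ a b) P) u 0 s = 0 := by
  obtain ⟨h1, h2⟩ := (mem_KrE H hep).1 hu
  exact ker_EE (D := dE H hep) (d := dm P) (A := arr H.hm (QQ a b) P)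
    (ker_allE (D := dE H hep) (d := dm P) (A := arr H.hm (QQ a b) P) hcl hN h1 h2)

/-- at a bad prime with trivial type the exponent vanishes -/
theorem Eb_zero {w : V ι (Tau a b)} {x0 : W}
    (h : ∀ s, Eb (dE H hep) (BT (QQ a b) P) w x0 s = 0) {s : Tau a b}
    (hs : tv a b s = 0) : w.2 s = 0 := by
  have h1 := h s
  have h2 : Eb (dE H hep) (BT (QQ a b) P) w x0 s = w.2 s + ∑ i, BT (QQ a b) P i s *
      om (w.1 i) (tv a b s) + ∑ s', (datum H).G s s' * (w.2 s' * om (tv a b s') (tv a b s)) +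
      (datum H).e s * om x0 (tv a b s) + (1 + ep s) * w.2 s := rfl
  rw [h2, hs, hep s hs] at h1
  have h3 : ((1 : F2) + 1) = 0 := by decide
  simpa only [om_zero_right, mul_zero, sum_const_zero, add_zero, h3, zero_mul] using h1

include H hR hcl hN in
/-- a locally soluble pair comes from the kernel and a point of order two -/
theorem sel_ptE {x y : K} (hx : x ≠ 0) (hy : y ≠ 0)
    (hls : LSg (F := K) k (crv (al K a P) (al K b P)) (al K a P) (al K b P) x y) :
    ∃ (u : KrE H hep P) (z : W), SqEq x (algebraMap k[X] K (q0 a b P u.1 z)) ∧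
      SqEq y (algebraMap k[X] K (q1 a b P u.1 z)) := by
  have hdT : ∀ y : W, dg (datum H) (fun i => ((P i).natDegree : F2)) (TT (datum H) y) = y :=
    fun y => by rw [dg_TT]; show (_ + (N : F2)) • y = y; rw [hN, one_smul]
  obtain ⟨r0, r1, n0, n1, c0, c1, w, hr0, hr1, hc0, hc1, e0, e1, f1, f2, E1z, E2z⟩ :=
    sel_vecE H hep hR hcl hx hy hls
  set z := dg (datum H) (fun i => ((P i).natDegree : F2)) w with hz
  set u := w + TT (datum H) z with hu
  have ku1 : ∀ i, E1 (A := AT P) (datum H) (BT (QQ a b) P) (fun i => ((P i).natDegree : F2)) u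
      ((ch r0, ch r1) + ks (datum H).l z) i = 0 := fun i => by
    rw [hu, E1_add, E1z, E1_TT, add_zero]
  have ku2 : ∀ s, Eb (dE H hep) (BT (QQ a b) P) u
      ((ch r0, ch r1) + ks (datum H).l z) s = 0 := fun s => by
    have h5 := Eb_add (dE H hep) (BT (QQ a b) P) w (TT (datum H) z) (ch r0, ch r1)
      (ks (datum H).l z) s
    have h6 : Eb (dE H hep) (BT (QQ a b) P) (TT (datum H) z) (ks (datum H).l z) s = 0 :=
      Eb_TT (dE H hep) hcl z s
    rw [h6, E2z, add_zero] at h5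
    exact h5
  have ku3 : ∀ w', FB (dE H hep) (dm P) (arr H.hm (QQ a b) P) u w' =
      om ((ch r0, ch r1) + ks (datum H).l z)
        (dg (datum H) (fun i => ((P i).natDegree : F2)) w') := fun w' =>
    FB_eq (dE H hep) (dm P) (arr H.hm (QQ a b) P) u _ ku1 ku2 w'
  have hdu : dg (datum H) (fun i => ((P i).natDegree : F2)) u = 0 := by
    rw [hu, dg_add, hdT, ← hz, W_add_self]
  have hx0 : ((ch r0, ch r1) : W) + ks (datum H).l z = 0 := by
    apply eq_zero_of_om
    intro t
    have h3 := ku3 (TT (datum H) t)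
    have h4 : FB (dE H hep) (dm P) (arr H.hm (QQ a b) P) (TT (datum H) t) u =
        om (ks (datum H).l t) (dg (datum H) (fun i => ((P i).natDegree : F2)) u) :=
      FB_eq (dE H hep) (dm P) (arr H.hm (QQ a b) P) _ (ks (datum H).l t)
        (fun i => E1_TT (datum H) _ _ _ i) (fun s => Eb_TT (dE H hep) hcl _ s) u
    rw [hdT, FB_comm, h4, hdu, om_zero_right] at h3
    exact h3.symm
  have hmem : u ∈ KrE H hep P := by
    rw [mem_KrE]
    refine ⟨hdu, fun v hv => ?_⟩
    rw [ku3, hv, om_zero_right]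
  have hw : u + TT (datum H) z = w := by
    have h8 : (TT (datum H) z : V ι (Tau a b)) + TT (datum H) z = 0 := by
      apply Prod.ext
      · funext i
        exact W_add_self _
      · funext s
        exact F2_add_self _
    rw [hu, add_assoc, h8, add_zero]
  obtain ⟨g1, g2⟩ := q_exp H u z
  rw [hw] at g1 g2
  have hch : ((ch r0, ch r1) : W) = (ch (1 * rp0 a b z), ch (1 * rp1 a b z)) := by
    rw [one_mul, one_mul, rp_ch H]
    exact F2_eq_of_W hx0
  have hn : ∀ x : ι ⊕ Tau a b, (((n0 x : F2), (n1 x : F2)) : W) =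
      ((((nw0 a b u + np0 ι a b z) x : ℕ) : F2), (((nw1 a b u + np1 ι a b z) x : ℕ) : F2)) := by
    rintro (i | s)
    · rw [g1]; exact f1 i
    · rw [g2]; exact f2 s
  refine ⟨⟨u, hmem⟩, z, ?_, ?_⟩
  · exact SqEq.trans ⟨c0, hc0, e0⟩ (glob_el hR hr0 (mul_ne_zero one_ne_zero (rp_ne H z).1) _ _
      (fun x => congrArg Prod.fst (hn x)) (congrArg Prod.fst hch))
  · exact SqEq.trans ⟨c1, hc1, e1⟩ (glob_el hR hr1 (mul_ne_zero one_ne_zero (rp_ne H z).2) _ _
      (fun x => congrArg Prod.snd (hn x)) (congrArg Prod.snd hch))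

include H hR hcl hN in
/-- **the order of the 2-Selmer group** -/
theorem sel_cardE :
    (Sl k (al K a P) (al K b P)).ncard = 2 ^ (2 + Pool.Agent.V8H26.YL.rk H hep P) := by
  have h2 := two_ne H
  obtain ⟨t1, t2, t3⟩ := tw_ne H hR
  have inj := IsFractionRing.injective k[X] K
  have h2K : (2 : K) ≠ 0 := tt h2
  have haK : al K a P ≠ 0 := by
    rw [al, Ne, IsFractionRing.to_map_eq_zero_iff]; exact t1
  have hbK : al K b P ≠ 0 := by
    rw [al, Ne, IsFractionRing.to_map_eq_zero_iff]; exact t2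
  have habK : al K a P ≠ al K b P := fun h => t3 (inj h)
  have hdT : ∀ y : W, dg (datum H) (fun i => ((P i).natDegree : F2)) (TT (datum H) y) = y :=
    fun y => by rw [dg_TT]; show (_ + (N : F2)) • y = y; rw [hN, one_smul]
  let Ψ : KrE H hep P × W → MS K × MS K := fun p =>
    ((un K (q_ne H hR p.1.1 p.2).1 : MS K), (un K (q_ne H hR p.1.1 p.2).2 : MS K))
  have hinj : Function.Injective Ψ := by
    rintro ⟨⟨u, hu⟩, y⟩ ⟨⟨u', hu'⟩, y'⟩ h
    have s0 := (ms_eq _ _).1 (congrArg Prod.fst h)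
    have s1 := (ms_eq _ _).1 (congrArg Prod.snd h)
    have s0' : SqEq (algebraMap k[X] K (q0 a b P u y)) (algebraMap k[X] K (q0 a b P u' y')) := s0
    have s1' : SqEq (algebraMap k[X] K (q1 a b P u y)) (algebraMap k[X] K (q1 a b P u' y')) := s1
    obtain ⟨k0, -⟩ := el_inj H.hk hR (mul_ne_zero one_ne_zero (rp_ne H y).1)
      (mul_ne_zero one_ne_zero (rp_ne H y').1) _ _ s0'
    obtain ⟨k1, -⟩ := el_inj H.hk hR (mul_ne_zero one_ne_zero (rp_ne H y).2)
      (mul_ne_zero one_ne_zero (rp_ne H y').2) _ _ s1'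
    obtain ⟨g1, g2⟩ := q_exp H u y
    obtain ⟨g1', g2'⟩ := q_exp H u' y'
    have hE2 : ∀ {u : V ι (Tau a b)} (_ : u ∈ KrE H hep P) (y : W) (s : Tau a b),
        Eb (dE H hep) (BT (QQ a b) P) (u + TT (datum H) y) (0 + ks (datum H).l y) s = 0 := by
      intro u hu y s
      have h5 := Eb_add (dE H hep) (BT (QQ a b) P) u (TT (datum H) y) 0 (ks (datum H).l y) s
      have h6 : Eb (dE H hep) (BT (QQ a b) P) (TT (datum H) y) (ks (datum H).l y) s = 0 :=
        Eb_TT (dE H hep) hcl y s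
      rw [h6, (kr_EE H hep hcl hN hu).2 s, add_zero] at h5
      exact h5
    have hv : u + TT (datum H) y = u' + TT (datum H) y' := by
      apply vec_ext
      · intro i
        rw [← g1, ← g1', k0, k1]
      · intro s
        rw [← g2, ← g2', k0, k1]
      · intro s hs
        rw [Eb_zero H hep (hE2 hu y) hs, Eb_zero H hep (hE2 hu' y') hs]
    have hy : y = y' := by
      have h3 := congrArg (dg (datum H) (fun i => ((P i).natDegree : F2))) hv
      rw [dg_add, dg_add, hdT, hdT, ((mem_KrE H hep).1 hu).1, ((mem_KrE H hep).1 hu').1, zero_add,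
        zero_add] at h3
      exact h3
    subst hy
    have hu'' : u = u' := add_right_cancel hv
    subst hu''
    rfl
  have hrange : Sl k (al K a P) (al K b P) = Set.range Ψ := by
    ext c
    constructor
    · rintro ⟨x, y, rfl, hls⟩
      obtain ⟨u, z, s0, s1⟩ := sel_ptE H hep hR hcl hN x.ne_zero y.ne_zero hls
      exact ⟨(u, z), Prod.ext ((ms_eq _ _).2 s0).symm ((ms_eq _ _).2 s1).symm⟩
    · rintro ⟨⟨⟨u, hu⟩, y⟩, rfl⟩
      refine ⟨_, _, rfl, ?_⟩
      have l1 := ls_kerE (K := K) H hR hep hcl ((mem_KrE H hep).1 hu).1 (kr_EE H hep hcl hN hu).1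
        (kr_EE H hep hcl hN hu).2
      obtain ⟨T, -, d0T, d1T⟩ := tor_T (K := K) H hR y
      have l2 := ls_of_point (k := k) h2K haK hbK habK T
      rw [d0T, d1T] at l2
      have l3 : LSg (F := K) k (crv (al K a P) (al K b P)) (al K a P) (al K b P)
          (algebraMap k[X] K (el (RR a b P) 1 (nw0 a b u)) *
            algebraMap k[X] K (el (RR a b P) (rp0 a b y) (np0 ι a b y)))
          (algebraMap k[X] K (el (RR a b P) 1 (nw1 a b u)) *
            algebraMap k[X] K (el (RR a b P) (rp1 a b y) (np1 ι a b y))) :=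
        ⟨fun v => locSol_mul (compAlgebra' k[X] K v K) (compAlgebra k[X] K v) h2K haK hbK habK
          (l1.1 v) (l2.1 v), locSol_mul (compInfAlgebra' k K K) (compInfAlgebra k K) h2K haK hbK
          habK l1.2 l2.2⟩
      rw [← map_mul, ← map_mul, el_mul, el_mul] at l3
      exact l3
  rw [hrange, ← Nat.card_coe_set_eq, Nat.card_range_of_injective hinj, Nat.card_prod, card_KrE,
    pow_add, mul_comm]
  congr 1
  rw [Nat.card_eq_fintype_card]
  rfl

include H hR hcl hN in
/-- with trivial kernel every locally soluble pair is the pair of a point of order two -/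
theorem sel_mainE (h0 : Pool.Agent.V8H26.YL.rk H hep P = 0) {a0 a1 : K} (ha0 : a0 ≠ 0)
    (ha1 : a1 ≠ 0)
    (hls : LSg (F := K) k (crv (al K a P) (al K b P)) (al K a P) (al K b P) a0 a1) :
    ∃ T : Pt (crv (al K a P) (al K b P)) K, T + T = 0 ∧
      SqEq a0 (d0 (al K a P) (al K b P) T) ∧ SqEq a1 (d1 (al K a P) (al K b P) T) := by
  obtain ⟨u, z, s0, s1⟩ := sel_ptE H hep hR hcl hN ha0 ha1 hls
  have hsub : Subsingleton (KrE H hep P) := by
    have h1 := card_KrE (P := P) H hep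
    rw [h0, pow_zero] at h1
    exact (Nat.card_eq_one_iff_unique.1 h1).1
  have hu : u.1 = 0 := by
    have : u = 0 := Subsingleton.elim _ _
    rw [this]
    rfl
  obtain ⟨T, hT, e0, e1⟩ := tor_T (K := K) H hR z
  have n0 : nw0 (ι := ι) a b 0 = 0 := by
    funext x
    rcases x with i | s
    · show ((0 : W).1 : ZMod 2).val = 0
      rfl
    · show ((0 : ZMod 2) * (tv a b s).1).val = 0
      rw [zero_mul]
      rfl
  have n1 : nw1 (ι := ι) a b 0 = 0 := by
    funext x
    rcases x with i | s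
    · show ((0 : W).2 : ZMod 2).val = 0
      rfl
    · show ((0 : ZMod 2) * (tv a b s).2).val = 0
      rw [zero_mul]
      rfl
  refine ⟨T, hT, ?_, ?_⟩
  · rw [e0]
    rw [hu, q0, n0, zero_add, one_mul] at s0
    exact s0
  · rw [e1]
    rw [hu, q1, n1, zero_add, one_mul] at s1
    exact s1

end

end Pool.Agent.V8H26.YA
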