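import Pool.Agent.V8H26.YA.Tor
import Pool.Agent.V8H26.XA.Fin

/-!
# The elements of the kernel are everywhere locally soluble
-/

set_option autoImplicit false
set_option linter.all false

open Polynomial IsDedekindDomain WeierstrassCurve WeierstrassCurve.Affine
open scoped Classical

namespace Pool.Agent.V8H26.YA

open Pool.Agent.TH115.GD Pool.Agent.H341R2.Sharp Finset Pool.Agent.Y164.PS Pool.Agent.V8H26.XA
open Pool.Agent.V8H26.YL (DE dt dt_apply dt_comm FB FB_apply FB_eq FF_key Eb Eb_add Eb_TT clA clE dE)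
open Pool.Agent.V8H26.XL (Arr arr dm F2s F2c)

theorem locSol_congr {K L : Type} [Field K] [Field L] (i1 i2 : Algebra K L) {α β a0 a1 b0 b1 : K}
    (h : @LocSol K K _ _ (crv α β) α β L _ i1 i2 a0 a1) (s0 : SqEq b0 a0) (s1 : SqEq b1 a1) :
    @LocSol K K _ _ (crv α β) α β L _ i1 i2 b0 b1 := by
  obtain ⟨Q, c0, c1, n0, n1, e0, e1⟩ := h
  obtain ⟨u0, m0, f0⟩ := s0
  obtain ⟨u1, m1, f1⟩ := s1
  refine ⟨Q, @algebraMap K L _ _ i2 u0 * c0, @algebraMap K L _ _ i2 u1 * c1,
    mul_ne_zero ((_root_.map_ne_zero _).2 m0) n0, mul_ne_zero ((_root_.map_ne_zero _).2 m1) n1,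
    ?_, ?_⟩
  · rw [f0, map_mul, map_pow, e0]
    ring
  · rw [f1, map_mul, map_pow, e1]
    ring

section
variable {k K : Type} [Field k] [Fintype k] [DecidableEq k] [Field K] [Algebra k[X] K]
  [IsFractionRing k[X] K]
variable {a b : k[X]} {N : ℕ} (H : Hyp a b N)
variable {ι : Type} [Fintype ι] {P : ι → k[X]} (hR : Fam (RR a b P))

/-- a product with an even exponent at one place is a unit there -/
theorem el_even {κ : Type} [Fintype κ] {R : κ → k[X]} (hR : Fam R) (x0 : κ) (r : k) (n : κ → ℕ)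
    (h : (n x0 : F2) = 0) :
    SqEq (algebraMap k[X] K (el R r n)) (algebraMap k[X] K (el' R x0 r n)) := by
  obtain ⟨m, hm⟩ := (cast_eq_zero_iff_even _).1 h
  rw [el_eq x0, map_mul, map_pow, hm]
  have h5 : algebraMap k[X] K (R x0) ≠ 0 := by simpa using (hR.irr x0).ne_zero
  exact ⟨algebraMap k[X] K (R x0) ^ m, pow_ne_zero m h5, by rw [pow_add]; ring⟩

include H hR in
theorem sol_split {s : Tau a b} {es : F2} (he : es = 0)
    (hcs : es + ∑ i, BT (QQ a b) P i s + (datum H).g s = 0) (ht : tv a b s ≠ 0)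
    {w : V ι (Tau a b)} {y : W}
    (hexp : (((nw0 a b w (Sum.inr s) : F2), (nw1 a b w (Sum.inr s) : F2)) : W) =
      ((np0 ι a b y (Sum.inr s) : F2), (np1 ι a b y (Sum.inr s) : F2)))
    (hu : VL a b P w (QQ a b s) + TL a b P y (QQ a b s) = tv a b s) :
    LocSol (F := K) (crv (al K a P) (al K b P)) (al K a P) (al K b P)
      (Comp k[X] K (plK (hR.irr (Sum.inr s))))
      (algebraMap k[X] K (el (RR a b P) 1 (nw0 a b w)))
      (algebraMap k[X] K (el (RR a b P) 1 (nw1 a b w))) := by
  have h2 := two_ne H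
  obtain ⟨t1, t2, t3⟩ := tw_ne H hR
  have inj := IsFractionRing.injective k[X] K
  have h2K : (2 : K) ≠ 0 := tt h2
  have haK : al K a P ≠ 0 := by
    rw [al, Ne, IsFractionRing.to_map_eq_zero_iff]; exact t1
  have hbK : al K b P ≠ 0 := by
    rw [al, Ne, IsFractionRing.to_map_eq_zero_iff]; exact t2
  have habK : al K a P ≠ al K b P := fun h => t3 (inj h)
  set v := plK (hR.irr (Sum.inr s)) with hv
  have q0n := mul_ne_zero (one_ne_zero (α := k)) (rp_ne H y).1
  have q1n := mul_ne_zero (one_ne_zero (α := k)) (rp_ne H y).2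
  set p0 := el' (RR a b P) (Sum.inr s) (1 * rp0 a b y) (nw0 a b w + np0 ι a b y) with hp0
  set p1 := el' (RR a b P) (Sum.inr s) (1 * rp1 a b y) (nw1 a b w + np1 ι a b y) with hp1
  have nd0 : ¬ QQ a b s ∣ p0 := el'_not_dvd hR (Sum.inr s) q0n _
  have nd1 : ¬ QQ a b s ∣ p1 := el'_not_dvd hR (Sum.inr s) q1n _
  have l0 : L p0 (QQ a b s) = (tv a b s).1 := by
    have h5 : L p0 (QQ a b s) = Lm (RR a b P) (1 * rp0 a b y) (nw0 a b w + np0 ι a b y) (QQ a b s) :=
      L_el' hR (Sum.inr s) q0n _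
    rw [h5, Lm_mul one_ne_zero (rp_ne H y).1]
    exact congrArg Prod.fst hu
  have l1 : L p1 (QQ a b s) = (tv a b s).2 := by
    have h5 : L p1 (QQ a b s) = Lm (RR a b P) (1 * rp1 a b y) (nw1 a b w + np1 ι a b y) (QQ a b s) :=
      L_el' hR (Sum.inr s) q1n _
    rw [h5, Lm_mul one_ne_zero (rp_ne H y).2]
    exact congrArg Prod.snd hu
  have hirr := H.fam.irr s
  have hPd : ¬ QQ a b s ∣ ∏ i, P i := by
    intro hd
    obtain ⟨i, -, hd⟩ := (hirr.prime.dvd_finset_prod_iff _).1 hd
    have h5 : P i = QQ a b s := (eq_of_monic_of_associated (H.fam.mon s) (hR.mon (Sum.inl i))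
      (hirr.associated_of_dvd (hR.irr (Sum.inl i)) hd)).symm
    have h6 : (Sum.inl i : ι ⊕ Tau a b) = Sum.inr s := hR.inj h5
    cases h6
  have hLP : L (∏ i, P i) (QQ a b s) = ∑ i, BT (QQ a b) P i s := by
    apply L_prod_left hirr.ne_zero (fun i _ => (hR.irr (Sum.inl i)).ne_zero)
    intro i _
    apply coprime_of_not_dvd hirr
    intro hd
    exact hPd (hd.trans (dvd_prod_of_mem _ (mem_univ i)))
  have hL : ∀ {f : k[X]}, ¬ QQ a b s ∣ f → L f (QQ a b s) = (datum H).g s →
      L (f * ∏ i, P i) (QQ a b s) = 0 := by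
    intro f hf hg
    rw [L_mul_nd (fun _ => trivial) hirr hf hPd, hg, hLP]
    rw [he, zero_add, add_comm] at hcs
    exact hcs
  have hnd : ∀ {f : k[X]}, ¬ QQ a b s ∣ f → ¬ QQ a b s ∣ f * ∏ i, P i := fun hf h =>
    (hirr.prime.dvd_or_dvd h).elim hf hPd
  have F1 : ∀ {x : F2}, x ≠ 0 → x = 1 := by decide
  have htype : (QQ a b s ∣ a * ∏ i, P i ∧ ¬ QQ a b s ∣ b * ∏ i, P i ∧
      L (b * ∏ i, P i) (QQ a b s) = 0 ∧ L p0 (QQ a b s) = 1 ∧ L p1 (QQ a b s) = 1) ∨
      (¬ QQ a b s ∣ a * ∏ i, P i ∧ QQ a b s ∣ b * ∏ i, P i ∧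
        L (a * ∏ i, P i) (QQ a b s) = 0 ∧ L p0 (QQ a b s) = 1 ∧ L p1 (QQ a b s) = 0) ∨
      (¬ QQ a b s ∣ a * ∏ i, P i ∧ QQ a b s ∣ a * ∏ i, P i - b * ∏ i, P i ∧
        L (a * ∏ i, P i) (QQ a b s) = 0 ∧ L p0 (QQ a b s) = 0 ∧ L p1 (QQ a b s) = 1) := by
    rcases tri H s with ⟨h1, h2', h3⟩ | ⟨h1, h2', h3⟩ | ⟨h1, h2', h3⟩
    · have mb : mu b s.1 = 0 := mu_eq_zero h2'
      have mc : mu (a - b) s.1 = 0 := mu_eq_zero h3
      have htv : tv a b s = ((mu a s.1 : F2), (mu a s.1 : F2)) := by
        simp only [tv, mb, mc, Nat.cast_zero, add_zero]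
      have hm : (mu a s.1 : F2) = 1 := F1 fun h => ht (by rw [htv, h]; rfl)
      rw [htv, hm] at l0 l1
      exact Or.inl ⟨h1.mul_right _, hnd h2', hL h2' (if_pos h1).symm, l0, l1⟩
    · have ma : mu a s.1 = 0 := mu_eq_zero h1
      have mc : mu (a - b) s.1 = 0 := mu_eq_zero h3
      have htv : tv a b s = ((mu b s.1 : F2), 0) := by
        simp only [tv, ma, mc, Nat.cast_zero, add_zero, zero_add]
      have hm : (mu b s.1 : F2) = 1 := F1 fun h => ht (by rw [htv, h]; rfl)
      rw [htv, hm] at l0 l1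
      exact Or.inr (Or.inl ⟨hnd h1, h2'.mul_right _, hL h1 (if_neg h1).symm, l0, l1⟩)
    · have ma : mu a s.1 = 0 := mu_eq_zero h1
      have mb : mu b s.1 = 0 := mu_eq_zero h2'
      have htv : tv a b s = (0, (mu (a - b) s.1 : F2)) := by
        simp only [tv, ma, mb, Nat.cast_zero, add_zero, zero_add]
      have hm : (mu (a - b) s.1 : F2) = 1 := F1 fun h => ht (by rw [htv, h]; rfl)
      rw [htv, hm] at l0 l1
      refine Or.inr (Or.inr ⟨hnd h1, ?_, hL h1 (if_neg h1).symm, l0, l1⟩)
      rw [← sub_mul]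
      exact h3.mul_right _
  obtain ⟨x, yy, e, x0, xa, s0, s1⟩ := split_pl (K := K) H.hk h2 H.hm v hirr (H.fam.mon s)
    (fun p => mem_plK (hR.irr (Sum.inr s))) nd0 nd1 htype
  have L1 := locSol_xy (compAlgebra' k[X] K v K) (compAlgebra k[X] K v) (fun x => rfl) h2K haK hbK
    habK e x0 xa s0 s1
  have hx0 : (nw0 a b w (Sum.inr s) : F2) = (np0 ι a b y (Sum.inr s) : F2) :=
    congrArg Prod.fst hexp
  have hx1 : (nw1 a b w (Sum.inr s) : F2) = (np1 ι a b y (Sum.inr s) : F2) :=
    congrArg Prod.snd hexp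
  have L2 := locSol_congr (compAlgebra' k[X] K v K) (compAlgebra k[X] K v) L1
    (el_even (K := K) hR (Sum.inr s) (1 * rp0 a b y) (nw0 a b w + np0 ι a b y) (by
      rw [Pi.add_apply, Nat.cast_add, hx0]
      exact F2_add_self _))
    (el_even (K := K) hR (Sum.inr s) (1 * rp1 a b y) (nw1 a b w + np1 ι a b y) (by
      rw [Pi.add_apply, Nat.cast_add, hx1]
      exact F2_add_self _))
  obtain ⟨T, -, d0T, d1T⟩ := tor_T (K := K) H hR y
  have l2 := ls_of_point (k := k) h2K haK hbK habK T
  rw [d0T, d1T] at l2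
  have L3 := locSol_mul (compAlgebra' k[X] K v K) (compAlgebra k[X] K v) h2K haK hbK habK L2
    (l2.1 v)
  have nz : ∀ {r : k} (n : ι ⊕ Tau a b → ℕ), r ≠ 0 → algebraMap k[X] K (el (RR a b P) r n) ≠ 0 := by
    intro r n hr
    rw [Ne, IsFractionRing.to_map_eq_zero_iff]
    exact el_ne hR hr _
  refine locSol_congr (compAlgebra' k[X] K v K) (compAlgebra k[X] K v) L3 ?_ ?_
  · rw [← el_mul, map_mul]
    exact SqEq.symm ⟨algebraMap k[X] K (el (RR a b P) (rp0 a b y) (np0 ι a b y)),
      nz _ (rp_ne H y).1, by ring⟩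
  · rw [← el_mul, map_mul]
    exact SqEq.symm ⟨algebraMap k[X] K (el (RR a b P) (rp1 a b y) (np1 ι a b y)),
      nz _ (rp_ne H y).2, by ring⟩

variable {ep : Tau a b → F2} (hep : ∀ s, tv a b s = 0 → ep s = 1)

include H hR in
/-- **the elements of the kernel are everywhere locally soluble** -/
theorem ls_kerE (hcl : clE (dE H hep) (QQ a b) P) {w : V ι (Tau a b)}
    (hw : dg (datum H) (fun i => ((P i).natDegree : F2)) w = 0)
    (h1 : ∀ i, E1 (A := AT P) (datum H) (BT (QQ a b) P) (fun i => ((P i).natDegree : F2)) w 0 i = 0)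
    (h2' : ∀ s, Eb (dE H hep) (BT (QQ a b) P) w 0 s = 0) :
    LSg (F := K) k (crv (al K a P) (al K b P)) (al K a P) (al K b P)
      (algebraMap k[X] K (el (RR a b P) 1 (nw0 a b w)))
      (algebraMap k[X] K (el (RR a b P) 1 (nw1 a b w))) := by
  have h2 := two_ne H
  obtain ⟨t1, t2, t3⟩ := tw_ne H hR
  have inj := IsFractionRing.injective k[X] K
  have h2K : (2 : K) ≠ 0 := tt h2
  have haK : al K a P ≠ 0 := by
    rw [al, Ne, IsFractionRing.to_map_eq_zero_iff]; exact t1
  have hbK : al K b P ≠ 0 := by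
    rw [al, Ne, IsFractionRing.to_map_eq_zero_iff]; exact t2
  have habK : al K a P ≠ al K b P := fun h => t3 (inj h)
  -- the places of the family
  have fam : ∀ (x : ι ⊕ Tau a b) (y : W),
      (((nw0 a b w x : F2), (nw1 a b w x : F2)) : W) =
        ((np0 ι a b y x : F2), (np1 ι a b y x : F2)) →
      VL a b P w (RR a b P x) = TL a b P y (RR a b P x) →
      LocSol (F := K) (crv (al K a P) (al K b P)) (al K a P) (al K b P)
        (Comp k[X] K (plK (hR.irr x)))
        (algebraMap k[X] K (el (RR a b P) 1 (nw0 a b w)))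
        (algebraMap k[X] K (el (RR a b P) 1 (nw1 a b w))) := by
    intro x y hy hL
    obtain ⟨T, -, e0, e1⟩ := tor_T (K := K) H hR y
    refine locSol_pt2 (compAlgebra' k[X] K (plK (hR.irr x)) K) (compAlgebra k[X] K (plK (hR.irr x)))
      (fun x => rfl) T ?_ ?_
    · rw [e0]
      exact loc_el' H.hk hR x one_ne_zero (rp_ne H y).1 _ _ (congrArg Prod.fst hy)
        (congrArg Prod.fst hL)
    · rw [e1]
      exact loc_el' H.hk hR x one_ne_zero (rp_ne H y).2 _ _ (congrArg Prod.snd hy)
        (congrArg Prod.snd hL)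
  constructor
  · intro v
    by_cases hv : ∃ x, RR a b P x ∈ v.asIdeal
    · obtain ⟨x, hx⟩ := hv
      have hvx := pl_eq (hR.irr x) hx
      subst hvx
      rcases x with i | s
      · refine fam (Sum.inl i) (w.1 i) ?_ ?_
        · rw [nw_inl, np_inl]
        · apply F2_eq_of_W
          rw [VL_eq, TL_eq H]
          have h3 := h1 i
          have a1 : ∀ j, AT P i j = L (P j) (P i) := fun j => by rw [AT, L_comm H.hm]
          have a2 : ∀ s, BT (QQ a b) P i s = L (QQ a b s) (P i) := fun s => by rw [BT, L_comm H.hm]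
          have h4 : E1 (A := AT P) (datum H) (BT (QQ a b) P) (fun i => ((P i).natDegree : F2)) w 0 i =
              ∑ j, L (P j) (P i) • w.1 j + ∑ s, L (QQ a b s) (P i) • (w.2 s • tv a b s) +
              (∑ j, L (P j) (P i) • w.1 i +
              ∑ s, L (QQ a b s) (P i) • (om (w.1 i) (tv a b s) • tv a b s) +
              ((P i).natDegree : F2) • ks (datum H).l (w.1 i)) := by
            simp only [E1, a1, a2, smul_add, sum_add_distrib, add_zero]
            have hts : ∀ s, (datum H).t s = tv a b s := fun _ => rfl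
            simp only [hts]
            abel
          rw [h4] at h3
          exact h3
      · have hcs : ep s + ∑ i, BT (QQ a b) P i s + (datum H).g s = 0 := hcl s
        have hE : Eb (dE H hep) (BT (QQ a b) P) w 0 s =
            w.2 s + ∑ i, L (P i) (QQ a b s) * om (w.1 i) (tv a b s) +
            ∑ s', L (QQ a b s') (QQ a b s) * (w.2 s' * om (tv a b s') (tv a b s)) +
            (1 + ep s) * w.2 s := by
          have a1 : ∀ s', (datum H).G s s' = L (QQ a b s') (QQ a b s) := fun s' => L_comm H.hm _ _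
          have h4 : E2 (ι := ι) (datum H) (BT (QQ a b) P) w 0 s =
              w.2 s + ∑ i, L (P i) (QQ a b s) * om (w.1 i) (tv a b s) +
              ∑ s', L (QQ a b s') (QQ a b s) * (w.2 s' * om (tv a b s') (tv a b s)) := by
            simp only [E2, a1, om_zero_left, mul_zero, add_zero]
            rfl
          rw [← h4]
          rfl
        have h3 := h2' s
        rw [hE] at h3
        rcases F2_cases (ep s) with he | he
        · -- split reduction
          have ht : tv a b s ≠ 0 := fun h => by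
            rw [hep s h] at he
            exact one_ne_zero he
          have hex : ∀ (t : W) (z : F2), t ≠ 0 → ∃ y : W, om y t = z := by decide
          obtain ⟨y, hy⟩ := hex (tv a b s) (w.2 s) ht
          have hexp : (((nw0 a b w (Sum.inr s) : F2), (nw1 a b w (Sum.inr s) : F2)) : W) =
              ((np0 ι a b y (Sum.inr s) : F2), (np1 ι a b y (Sum.inr s) : F2)) := by
            rw [nw_inr, np_inr H, hy]
          have v1 : om (VL a b P w (QQ a b s)) (tv a b s) = 0 := by
            rw [VL_eq]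
            simp only [om_add_left, om_sum_left, om_smul_left]
            have key : ∀ p q r : F2, p + q + r + (1 + 0) * p = 0 → q + r = 0 := by decide
            rw [he] at h3
            exact key _ _ _ h3
          have v2 : om (TL a b P y (QQ a b s)) (tv a b s) = 0 := by
            rw [TL_omE H hcs, he, zero_mul]
          have hcase : ∀ (t u v : W), t ≠ 0 → om u t = 0 → om v t = 0 → u = v ∨ u + v = t := by
            decide
          rcases hcase _ _ _ ht v1 v2 with h5 | h5
          · exact fam (Sum.inr s) y hexp h5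
          · exact sol_split (K := K) H hR he hcs ht hexp h5
        · -- non-split reduction
          rw [he] at hcs
          obtain ⟨y, hy⟩ := TL_surjE H hcs (VL a b P w (QQ a b s))
          refine fam (Sum.inr s) y ?_ hy.symm
          rw [nw_inr, np_inr H]
          congr 1
          have h6 := TL_omE H hcs y
          rw [one_mul] at h6
          rw [← h6, hy, VL_eq]
          simp only [om_add_left, om_sum_left, om_smul_left]
          have key : ∀ p q r : F2, p + q + r + (1 + 1) * p = 0 → p = q + r := by decide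
          rw [he] at h3
          exact key _ _ _ h3
    · push Not at hv
      obtain ⟨π, hπ, hvπ⟩ := exists_gen v
      have hnd : ∀ x, ¬ π ∣ RR a b P x := fun x hx => hv x ((hvπ _).2 hx)
      have hP : ¬ π ∣ ∏ i, P i := by
        rw [hπ.prime.dvd_finset_prod_iff]
        rintro ⟨i, -, hi⟩
        exact hnd (Sum.inl i) hi
      have hbad : ¬ π ∣ a * b * (a - b) := by
        intro hd
        have hl : π.leadingCoeff ≠ 0 := leadingCoeff_ne_zero.2 hπ.ne_zero
        have hu : IsUnit (C π.leadingCoeff⁻¹ : k[X]) :=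
          isUnit_C.2 (isUnit_iff_ne_zero.2 (inv_ne_zero hl))
        have h5 : C π.leadingCoeff⁻¹ * π ∣ π := (hu.mul_left_dvd).2 dvd_rfl
        have h6 : C π.leadingCoeff⁻¹ * π ∈ bp a b := by
          rw [mem_bp H]
          refine ⟨?_, ?_, h5.trans hd⟩
          · rw [Monic, leadingCoeff_mul, leadingCoeff_C, inv_mul_cancel₀ hl]
          · exact (irreducible_isUnit_mul hu).2 hπ
        exact hnd (Sum.inr ⟨_, h6⟩) (dvd_mul_left _ _)
      have nA : ¬ π ∣ a * ∏ i, P i := fun h => (hπ.prime.dvd_or_dvd h).elim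
        (fun h => hbad ((h.mul_right b).mul_right _)) hP
      have nB : ¬ π ∣ b * ∏ i, P i := fun h => (hπ.prime.dvd_or_dvd h).elim
        (fun h => hbad ((h.mul_left a).mul_right _)) hP
      have nAB : ¬ π ∣ a * ∏ i, P i - b * ∏ i, P i := by
        rw [← sub_mul]
        exact fun h => (hπ.prime.dvd_or_dvd h).elim (fun h => hbad (h.mul_left _)) hP
      rcases good_pl (K := K) h2 v hπ hvπ nA nB nAB (not_dvd_el hπ hnd (nw0 a b w))
        (not_dvd_el hπ hnd (nw1 a b w)) with ⟨T, s0, s1⟩ | ⟨x, y, e, x0, xa, s0, s1⟩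
      · exact locSol_pt2 (compAlgebra' k[X] K v K) (compAlgebra k[X] K v) (fun x => rfl) T s0 s1
      · exact locSol_xy (compAlgebra' k[X] K v K) (compAlgebra k[X] K v) (fun x => rfl) h2K haK hbK
          habK e x0 xa s0 s1
  · have hd := deg_w H hR w
    rw [hw] at hd
    have d0' : Even (el (RR a b P) 1 (nw0 a b w)).natDegree := by
      rw [← cast_eq_zero_iff_even]
      exact congrArg Prod.fst hd
    have d1' : Even (el (RR a b P) 1 (nw1 a b w)).natDegree := by
      rw [← cast_eq_zero_iff_even]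
      exact congrArg Prod.snd hd
    refine locSol_pt2 (compInfAlgebra' k K K) (compInfAlgebra k K) (fun x => rfl) 0 ?_ ?_
    · have h3 := sq_inf' (K := K) h2 (monic_el hR.mon (nw0 a b w)) d0'
      show SqEq _ (algebraMap K (CompInf k K) 1)
      rw [map_one]
      exact h3
    · have h3 := sq_inf' (K := K) h2 (monic_el hR.mon (nw1 a b w)) d1'
      show SqEq _ (algebraMap K (CompInf k K) 1)
      rw [map_one]
      exact h3

end

end Pool.Agent.V8H26.YA
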