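import Pool.Agent.V8H26.YA.LocQ

/-!
# The classes of the points of order two at the bad primes, and the equations of the kernel
-/

set_option autoImplicit false
set_option linter.all false

open Polynomial IsDedekindDomain WeierstrassCurve WeierstrassCurve.Affine
open scoped Classical

namespace Pool.Agent.V8H26.YA

open Pool.Agent.TH115.GD Pool.Agent.H341R2.Sharp Finset Pool.Agent.Y164.PS Pool.Agent.V8H26.XA
open Pool.Agent.V8H26.YL (DE dt dt_apply dt_comm FB FB_apply FB_eq FF_key Eb Eb_add Eb_TT clA clE dE)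
open Pool.Agent.V8H26.XL (Arr arr dm F2s F2c)

section abs
variable {ι τ : Type} [Fintype ι] [Fintype τ] (D : DE τ) (d : ι → ZMod 2) (A : Arr ι τ)

theorem FB_comm (w w' : V ι τ) : FB D d A w w' = FB D d A w' w := by
  rw [FB_apply, FB_apply, FF_comm D.toDat A.B d A.symm, dt_comm]

theorem FB_key (w : V ι τ) (x0 : W) (w' : V ι τ) : FB D d A w w' + om x0 (dg D.toDat d w') =
    ∑ i, om (E1 (A := A.A) D.toDat A.B d w x0 i) (w'.1 i) + ∑ s, Eb D A.B w x0 s * w'.2 s := by
  have h1 := FF_key D d A w x0 w'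
  have h2 : ∑ s, Eb D A.B w x0 s * w'.2 s =
      ∑ s, E2 (ι := ι) D.toDat A.B w x0 s * w'.2 s + dt D w w' := by
    rw [dt_apply, ← sum_add_distrib]
    refine sum_congr rfl fun s _ => ?_
    rw [Eb]
    ring
  rw [FB_apply, h2, ← add_assoc, ← h1]
  ring

variable {D d A}

/-- the kernel on the vectors of degree zero is the kernel -/
theorem ker_allE (hcl : clA D A) (hN : ∑ i, d i + D.N = 1) {w : V ι τ} (hw : dg D.toDat d w = 0)
    (h : ∀ w', dg D.toDat d w' = 0 → FB D d A w w' = 0) (w' : V ι τ) : FB D d A w w' = 0 := by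
  have hdT : ∀ y : W, dg D.toDat d (TT D.toDat y) = y := fun y => by rw [dg_TT, hN, one_smul]
  have h1 : FB D d A w (TT D.toDat (dg D.toDat d w')) = 0 := by
    rw [FB_comm, FB_eq D d A _ (ks D.l (dg D.toDat d w')) (fun i => E1_TT D.toDat A.B d _ i)
      (fun s => Eb_TT D hcl _ s), hw, om_zero_right]
  have h2 : FB D d A w (w' + TT D.toDat (dg D.toDat d w')) = 0 := by
    apply h
    rw [dg_add, hdT, W_add_self]
  rw [map_add, h1, add_zero] at h2
  exact h2

/-- the equations of the kernel -/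
theorem ker_EE {w : V ι τ} (hw : ∀ w', FB D d A w w' = 0) :
    (∀ i, E1 (A := A.A) D.toDat A.B d w 0 i = 0) ∧ ∀ s, Eb D A.B w 0 s = 0 := by
  have key : ∀ w' : V ι τ, ∑ i, om (E1 (A := A.A) D.toDat A.B d w 0 i) (w'.1 i) +
      ∑ s, Eb D A.B w 0 s * w'.2 s = 0 := by
    intro w'
    rw [← FB_key D d A w 0 w', hw, om_zero_left, add_zero]
  constructor
  · intro i
    apply eq_zero_of_om
    intro z
    have h1 := key (Pi.single i z, 0)
    have h2 : ∑ s, Eb D A.B w 0 s * (0 : τ → ZMod 2) s = 0 := by simp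
    have h3 : ∑ j, om (E1 (A := A.A) D.toDat A.B d w 0 j) ((Pi.single i z : ι → W) j) +
      ∑ s, Eb D A.B w 0 s * (0 : τ → ZMod 2) s = 0 := h1
    rw [h2, add_zero, om_pi] at h3
    exact h3
  · intro s
    have h1 := key (0, Pi.single s 1)
    have h2 : ∑ i, om (E1 (A := A.A) D.toDat A.B d w 0 i) ((0 : ι → W) i) = 0 :=
      sum_eq_zero fun i _ => om_zero_right _
    have h3 : ∑ i, om (E1 (A := A.A) D.toDat A.B d w 0 i) ((0 : ι → W) i) +
      ∑ s', Eb D A.B w 0 s' * (Pi.single s 1 : τ → ZMod 2) s' = 0 := h1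
    rw [h2, zero_add, sum_eq_single s] at h3
    · rw [Pi.single_eq_same, mul_one] at h3
      exact h3
    · intro j _ hj
      rw [Pi.single_eq_of_ne hj, mul_zero]
    · intro h
      exact absurd (mem_univ _) h

end abs

section
variable {k : Type} [Field k] [Fintype k] [DecidableEq k]
variable {a b : k[X]} {N : ℕ} (H : Hyp a b N)
variable {ι : Type} [Fintype ι] {P : ι → k[X]}

include H in
/-- the points of order two are locally independent at the bad primes -/
theorem TL_neE {s : Tau a b} (hcs : 1 + ∑ i, BT (QQ a b) P i s + (datum H).g s = 0) {y : W}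
    (hy : y ≠ 0) :
    TL a b P y (QQ a b s) ≠ 0 := by
  obtain ⟨da, db, dc⟩ := dvd3 H
  have hcne : a - b ≠ 0 := sub_ne_zero.2 H.hab
  have la : a.leadingCoeff ≠ 0 := leadingCoeff_ne_zero.2 H.ha
  have lb : b.leadingCoeff ≠ 0 := leadingCoeff_ne_zero.2 H.hb
  have lc : (a - b).leadingCoeff ≠ 0 := leadingCoeff_ne_zero.2 hcne
  obtain ⟨l1, l2, l3⟩ := L_types H s
  set x := Lm (RR a b P) a.leadingCoeff (nn ι a b a) (QQ a b s) with hx
  set z := Lm (RR a b P) b.leadingCoeff (nn ι a b b) (QQ a b s) with hz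
  set u := Lm (RR a b P) (a - b).leadingCoeff (nn ι a b (a - b)) (QQ a b s) with hu
  have F2l : ∀ x y : F2, 1 + x + y = 0 → x + y = 1 := by decide
  -- at most one of the three symbols is trivial
  have key : ¬ (x = 0 ∧ z = 0) ∧ ¬ (x = 0 ∧ u = 0) ∧ ¬ (z = 0 ∧ u = 0) := by
    rcases tri H s with ⟨h1, h2, h3⟩ | ⟨h1, h2, h3⟩ | ⟨h1, h2, h3⟩
    · have hg : (datum H).g s = L b (QQ a b s) := if_pos h1
      rw [hg] at hcs
      have ez : z = 1 := by rw [hz, Lm_tw H H.hb db s h2]; exact F2l _ _ hcs
      have eu : u = 1 := by rw [hu, Lm_tw H hcne dc s h3, l1 h1]; exact F2l _ _ hcs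
      rw [ez, eu]
      simp
    · have hg : (datum H).g s = L a (QQ a b s) := if_neg h1
      rw [hg] at hcs
      have ex : x = 1 := by rw [hx, Lm_tw H H.ha da s h1]; exact F2l _ _ hcs
      have eu : u = 1 := by rw [hu, Lm_tw H hcne dc s h3, l2 h2]; exact F2l _ _ hcs
      rw [ex, eu]
      simp
    · have hg : (datum H).g s = L a (QQ a b s) := if_neg h1
      rw [hg] at hcs
      have ex : x = 1 := by rw [hx, Lm_tw H H.ha da s h1]; exact F2l _ _ hcs
      have ez : z = 1 := by rw [hz, Lm_tw H H.hb db s h2, l3 h3]; exact F2l _ _ hcs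
      rw [ex, ez]
      simp
  have add0 : ∀ x y : F2, x + y = 0 → y = 0 → x = 0 := by decide
  intro h
  have h0 := congrArg Prod.fst h
  have h1 := congrArg Prod.snd h
  simp only [TL, LW] at h0 h1
  rcases W_cases y with rfl | rfl | rfl | rfl
  · exact hy rfl
  · have e0 : Lm (RR a b P) (a.leadingCoeff * b.leadingCoeff) (nn ι a b a + nn ι a b b) (QQ a b s) =
        0 := by
      simp only [rp0, np0, if_true, one_ne_zero, if_false] at h0
      exact h0
    have e1 : Lm (RR a b P) (-1 * a.leadingCoeff) (nn ι a b a) (QQ a b s) = 0 := by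
      simp only [rp1, np1, if_true, one_ne_zero, if_false] at h1
      exact h1
    rw [Lm_mul la lb] at e0
    rw [Lm_neg H la] at e1
    apply key.1
    refine ⟨e1, ?_⟩
    rw [add_comm] at e0
    exact add0 _ _ e0 e1
  · have e0 : Lm (RR a b P) a.leadingCoeff (nn ι a b a) (QQ a b s) = 0 := by
      simp only [rp0, np0, if_true, one_ne_zero, if_false] at h0
      exact h0
    have e1 : Lm (RR a b P) (a.leadingCoeff * (a - b).leadingCoeff)
        (nn ι a b a + nn ι a b (a - b)) (QQ a b s) = 0 := by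
      simp only [rp1, np1, if_true, one_ne_zero, if_false] at h1
      exact h1
    rw [Lm_mul la lc] at e1
    apply key.2.1
    refine ⟨e0, ?_⟩
    rw [add_comm] at e1
    exact add0 _ _ e1 e0
  · have e0 : Lm (RR a b P) b.leadingCoeff (nn ι a b b) (QQ a b s) = 0 := by
      simp only [rp0, np0, if_true, one_ne_zero, if_false] at h0
      exact h0
    have e1 : Lm (RR a b P) (-1 * (a - b).leadingCoeff) (nn ι a b (a - b)) (QQ a b s) = 0 := by
      simp only [rp1, np1, if_true, one_ne_zero, if_false] at h1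
      exact h1
    rw [Lm_neg H lc] at e1
    exact key.2.2 ⟨e0, e1⟩

include H in
theorem TL_surjE {s : Tau a b} (hcs : 1 + ∑ i, BT (QQ a b) P i s + (datum H).g s = 0) (l : W) :
    ∃ y : W, TL a b P y (QQ a b s) = l := by
  have hinj : Function.Injective fun y : W => TL a b P y (QQ a b s) := by
    intro y y' h
    by_contra hne
    have h1 : y + y' ≠ 0 := by
      intro h0
      apply hne
      calc y = y + (y' + y') := by rw [W_add_self, add_zero]
        _ = y' := by rw [← add_assoc, h0, zero_add]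
    apply TL_neE H hcs h1
    rw [TL_add H]
    have h2 : TL a b P y (QQ a b s) = TL a b P y' (QQ a b s) := h
    rw [h2]
    exact W_add_self _
  exact (Finite.injective_iff_surjective.1 hinj) l

include H in
theorem TL_omE {s : Tau a b} {es : F2} (hcs : es + ∑ i, BT (QQ a b) P i s + (datum H).g s = 0)
    (y : W) : om (TL a b P y (QQ a b s)) (tv a b s) = es * om y (tv a b s) := by
  have h1 := (datum H).h1 s y
  rw [TL_eq H]
  simp only [om_add_left, om_sum_left, om_smul_left]
  have a1 : ∑ s', L (QQ a b s') (QQ a b s) * (om y (tv a b s') * om (tv a b s') (tv a b s)) +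
      ((QQ a b s).natDegree : F2) * om (ks (datum H).l y) (tv a b s) =
      (datum H).g s * om y (tv a b s) := by
    refine Eq.trans ?_ h1
    show _ = ∑ s', (datum H).G s s' * (om y (tv a b s') * om (tv a b s') (tv a b s)) +
      ((QQ a b s).natDegree : F2) * om (ks (datum H).l y) (tv a b s)
    congr 1
    refine sum_congr rfl fun s' _ => ?_
    have : (datum H).G s s' = L (QQ a b s') (QQ a b s) := L_comm H.hm _ _
    rw [this]
  have a2 : ∑ i, L (P i) (QQ a b s) * om y (tv a b s) =
      (∑ i, BT (QQ a b) P i s) * om y (tv a b s) := by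
    rw [sum_mul]
    rfl
  rw [add_assoc, a1, a2, ← add_mul]
  have : ∀ e x y : F2, e + x + y = 0 → x + y = e := by decide
  rw [this _ _ _ hcs]

end

end Pool.Agent.V8H26.YA
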